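import Mathlib

/-!
# A commutative separable Banach algebra with `A = A²` and `A · c₀(A) ≠ c₀(A)`

Construction.  Let `H` be the Banach space of bounded functions on `(ℕ → ℕ) × (ℕ → Bool)`.  On `H`
we have contractions `Z k` (forward shift of the `k`-th exponent), `Sh k` (backward shift),
`U n`, `V n` (creation and annihilation of the `n`-th bit), and the functional `om` (evaluation at
the base point), with `Sh k * Z k = 1`, `U n * V n + V n * U n = 1`, `om ∘ Z k = om ∘ U n = 0`.
For `K : ℕ` give an operator `X` the norm `max ‖X‖ (K * ‖om ∘ X‖)`; this is the operator norm of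
`pr K X` on `H × ℂ`.  Define recursively commuting operators `Y n = U n + G n * V n`, where the
`G n` are the normalised elements of the countable ring generated by the `Z k`, the Gaussian
rational scalars and the earlier `Y l`; then `Y n ^ 2 = G n` and `Y n` has norm at most `2`.  The
closure `Qs K` of the ring generated by all of these is a commutative separable unital algebra in
which squares are dense, with norm control, and whose unit has norm about `K`.  In the `c₀`-sum of
the `Qs (Kn n)` every element is therefore of the form `g * g + e * r`.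

Obstruction.  If `Z 0, …, Z m` were all of the form `∑_{j<m} a j * b k j` with `a j`, `b k j`
bounded independently of `K`, then a Koszul complex argument on the space of bounded sequences in
`H` (for which `Z 0, …, Z m` is a regular sequence) gives `1 = ∑ a j (w j)` with bounded `w j`;
applying `om` shows that this is impossible when `K` is large.
-/

namespace Pool.Agent.Results.MP_bc5e3f_an.NullSequencesFail

open Filter Topology

/-! ### The objects of the statement -/

/-- `c₀(A)`: the sequences in `A` whose norms tend to `0`. -/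
def NullSeq (A : Type*) [NonUnitalNormedCommRing A] : Set (ℕ → A) :=
  {x | Tendsto (fun k => ‖x k‖) atTop (𝓝 0)}

/-- `A · c₀(A)`: the sequences `(∑_{j<m} a_j b_{jk})_k` with `m : ℕ`, `a_j ∈ A` and
`(b_{jk})_k ∈ c₀(A)`. -/
def MulNullSeq (A : Type*) [NonUnitalNormedCommRing A] : Set (ℕ → A) :=
  {x | ∃ (m : ℕ) (a : Fin m → A) (b : Fin m → ℕ → A), (∀ j, b j ∈ NullSeq A) ∧
    ∀ k, x k = ∑ j, a j * b j k}


/-! ### Koszul complexes -/

section signs
variable {m : ℕ}

/-- the sign of `j` relative to the set `s` -/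
def sg (j : Fin m) (s : Finset (Fin m)) : ℤ := (-1) ^ (s.filter (· < j)).card

theorem sg_insert_self (j : Fin m) (s : Finset (Fin m)) : sg j (insert j s) = sg j s := by
  unfold sg
  rw [Finset.filter_insert, if_neg (lt_irrefl j)]

theorem sg_insert_gt {i j : Fin m} (h : i < j) (s : Finset (Fin m)) :
    sg i (insert j s) = sg i s := by
  unfold sg
  rw [Finset.filter_insert, if_neg (not_lt.2 h.le)]

theorem sg_insert_lt {i j : Fin m} (h : j < i) {s : Finset (Fin m)} (hj : j ∉ s) :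
    sg i (insert j s) = - sg i s := by
  unfold sg
  rw [Finset.filter_insert, if_pos h, Finset.card_insert_of_notMem, pow_succ]
  · ring
  · simp [hj]

theorem sg_mul_self (j : Fin m) (s : Finset (Fin m)) : sg j s * sg j s = 1 := by
  unfold sg
  rw [← mul_pow]; simp

theorem sg_insert_insert {i j : Fin m} (hij : i ≠ j) {s : Finset (Fin m)} (hi : i ∉ s)
    (hj : j ∉ s) : sg i s * sg j (insert i s) = - (sg j s * sg i (insert j s)) := by
  rcases lt_or_gt_of_ne hij with h | h
  · rw [sg_insert_lt h hi, sg_insert_gt h]; ring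
  · rw [sg_insert_gt h, sg_insert_lt h hj]; ring

end signs

section car
variable {N : Type*} [AddCommGroup N] [Module ℂ N] {m : ℕ}

/-- annihilation operator -/
def an (j : Fin m) : (Finset (Fin m) → N) →ₗ[ℂ] (Finset (Fin m) → N) where
  toFun y := fun s => if j ∈ s then 0 else sg j s • y (insert j s)
  map_add' x y := by
    ext s; by_cases h : j ∈ s <;> simp [h]
  map_smul' c y := by
    ext s; by_cases h : j ∈ s
    · simp [h]
    · simp only [if_neg h, Pi.smul_apply, RingHom.id_apply]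
      rw [smul_comm]

/-- creation operator -/
def cr (j : Fin m) : (Finset (Fin m) → N) →ₗ[ℂ] (Finset (Fin m) → N) where
  toFun y := fun s => if j ∈ s then sg j s • y (s.erase j) else 0
  map_add' x y := by
    ext s; by_cases h : j ∈ s <;> simp [h]
  map_smul' c y := by
    ext s; by_cases h : j ∈ s
    · simp only [if_pos h, Pi.smul_apply, RingHom.id_apply]
      rw [smul_comm]
    · simp [h]

theorem an_apply (j : Fin m) (y : Finset (Fin m) → N) (s : Finset (Fin m)) :
    an j y s = if j ∈ s then 0 else sg j s • y (insert j s) := rfl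

theorem cr_apply (j : Fin m) (y : Finset (Fin m) → N) (s : Finset (Fin m)) :
    cr j y s = if j ∈ s then sg j s • y (s.erase j) else 0 := rfl

theorem an_an (i j : Fin m) (y : Finset (Fin m) → N) : an i (an j y) = - an j (an i y) := by
  ext s
  simp only [an_apply, Pi.neg_apply]
  by_cases hi : i ∈ s
  · simp [hi]
  by_cases hj : j ∈ s
  · simp [hj]
  by_cases hij : i = j
  · subst hij; simp
  have h1 : j ∉ insert i s := by simp [hj, Ne.symm hij]
  have h2 : i ∉ insert j s := by simp [hi, hij]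
  rw [if_neg hi, if_neg h1, if_neg hj, if_neg h2, smul_smul, smul_smul, ← neg_smul,
    sg_insert_insert hij hi hj, Finset.insert_comm]

theorem an_cr (i j : Fin m) (y : Finset (Fin m) → N) :
    an i (cr j y) + cr j (an i y) = if i = j then y else 0 := by
  ext s
  simp only [an_apply, cr_apply, Pi.add_apply]
  by_cases hij : i = j
  · subst hij
    rw [if_pos rfl]
    by_cases hi : i ∈ s
    · rw [if_pos hi, if_pos hi, if_neg (Finset.notMem_erase i s), smul_smul,
        Finset.insert_erase hi, zero_add]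
      have : sg i (s.erase i) = sg i s := by
        conv_rhs => rw [← Finset.insert_erase hi, sg_insert_self]
      rw [this, sg_mul_self, one_smul]
    · rw [if_neg hi, if_neg hi, if_pos (Finset.mem_insert_self i s), smul_smul, sg_insert_self,
        sg_mul_self, one_smul, add_zero, Finset.erase_insert hi]
  · rw [if_neg hij]
    by_cases hi : i ∈ s
    · have h1 : i ∈ s.erase j := Finset.mem_erase.2 ⟨hij, hi⟩
      by_cases hj : j ∈ s
      · simp [hi, hj, h1]
      · simp [hi, hj]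
    · by_cases hj : j ∈ s
      · have h1 : i ∉ s.erase j := fun h => hi (Finset.mem_of_mem_erase h)
        have h2 : j ∈ insert i s := Finset.mem_insert_of_mem hj
        rw [if_neg hi, if_pos h2, if_pos hj, if_neg h1, smul_smul, smul_smul]
        have h3 : (insert i s).erase j = insert i (s.erase j) :=
          Finset.erase_insert_of_ne hij
        have h4 : sg j (insert i s) = - (sg i s * sg j s * sg i (s.erase j)) := by
          have h5 := sg_insert_insert hij (s := s.erase j) h1 (Finset.notMem_erase j s)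
          rw [Finset.insert_erase hj] at h5
          -- sg i (s.erase j) * sg j (insert i (s.erase j)) = - (sg j (s.erase j) * sg i s)
          have h6 : sg j (s.erase j) = sg j s := by
            conv_rhs => rw [← Finset.insert_erase hj, sg_insert_self]
          have h7 : sg j (insert i (s.erase j)) = sg j (insert i s) := by
            have : insert i s = insert j (insert i (s.erase j)) := by
              rw [Finset.insert_comm, Finset.insert_erase hj]
            rw [this, sg_insert_self]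
          rw [h6, h7] at h5
          have h8 := sg_mul_self i (s.erase j)
          calc sg j (insert i s) = sg i (s.erase j) * sg i (s.erase j) * sg j (insert i s) := by
                rw [h8, one_mul]
            _ = sg i (s.erase j) * (sg i (s.erase j) * sg j (insert i s)) := by ring
            _ = - (sg i s * sg j s * sg i (s.erase j)) := by rw [h5]; ring
        rw [h3, h4, ← add_smul]
        have h9 := sg_mul_self i s
        have : sg i s * -(sg i s * sg j s * sg i (s.erase j)) + sg j s * sg i (s.erase j) = 0 := by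
          have : sg i s * -(sg i s * sg j s * sg i (s.erase j)) =
            -((sg i s * sg i s) * (sg j s * sg i (s.erase j))) := by ring
          rw [this, h9]; ring
        rw [this, zero_smul]; rfl
      · have h2 : j ∉ insert i s := by simp [hj, Ne.symm hij]
        simp [hi, hj, h2]

/-- apply an endomorphism to every coordinate -/
abbrev lift (f : Module.End ℂ N) : (Finset (Fin m) → N) →ₗ[ℂ] (Finset (Fin m) → N) :=
  f.compLeft (Finset (Fin m))

theorem lift_apply (f : Module.End ℂ N) (y : Finset (Fin m) → N) (s : Finset (Fin m)) :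
    lift f y s = f (y s) := rfl

theorem an_lift (j : Fin m) (f : Module.End ℂ N) (y : Finset (Fin m) → N) :
    an j (lift f y) = lift f (an j y) := by
  ext s
  simp only [an_apply, lift_apply]
  by_cases h : j ∈ s
  · simp [h]
  · simp only [if_neg h, map_zsmul]

theorem cr_lift (j : Fin m) (f : Module.End ℂ N) (y : Finset (Fin m) → N) :
    cr j (lift f y) = lift f (cr j y) := by
  ext s
  simp only [cr_apply, lift_apply]
  by_cases h : j ∈ s
  · simp only [if_pos h, map_zsmul]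
  · simp [h]

/-- Koszul differential -/
def dd (a : Fin m → Module.End ℂ N) (y : Finset (Fin m) → N) : Finset (Fin m) → N :=
  ∑ j, lift (a j) (an j y)

/-- exterior multiplication by a vector of endomorphisms -/
def bb (b : Fin m → Module.End ℂ N) (y : Finset (Fin m) → N) : Finset (Fin m) → N :=
  ∑ j, lift (b j) (cr j y)

theorem dd_add (a : Fin m → Module.End ℂ N) (x y : Finset (Fin m) → N) :
    dd a (x + y) = dd a x + dd a y := by
  simp [dd, map_add, Finset.sum_add_distrib]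

theorem dd_sub (a : Fin m → Module.End ℂ N) (x y : Finset (Fin m) → N) :
    dd a (x - y) = dd a x - dd a y := by
  simp [dd, map_sub, Finset.sum_sub_distrib]

theorem dd_lift (a : Fin m → Module.End ℂ N) (f : Module.End ℂ N) (hf : ∀ j, Commute f (a j))
    (y : Finset (Fin m) → N) : dd a (lift f y) = lift f (dd a y) := by
  unfold dd
  rw [map_sum]
  refine Finset.sum_congr rfl fun j _ => ?_
  rw [an_lift]
  ext s
  simp only [lift_apply]
  have := congrArg (fun g : Module.End ℂ N => g (an j y s)) (hf j).eq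
  simpa using this.symm

theorem bb_lift (b : Fin m → Module.End ℂ N) (f : Module.End ℂ N) (hf : ∀ j, Commute f (b j))
    (y : Finset (Fin m) → N) : bb b (lift f y) = lift f (bb b y) := by
  unfold bb
  rw [map_sum]
  refine Finset.sum_congr rfl fun j _ => ?_
  rw [cr_lift]
  ext s
  simp only [lift_apply]
  have := congrArg (fun g : Module.End ℂ N => g (cr j y s)) (hf j).eq
  simpa using this.symm

theorem dd_dd (a : Fin m → Module.End ℂ N) (ha : ∀ i j, Commute (a i) (a j))
    (y : Finset (Fin m) → N) : dd a (dd a y) = 0 := by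
  have h1 : dd a (dd a y) = ∑ i, ∑ j, lift (a i) (lift (a j) (an i (an j y))) := by
    unfold dd
    refine Finset.sum_congr rfl fun i _ => ?_
    rw [map_sum, map_sum]
    refine Finset.sum_congr rfl fun j _ => ?_
    rw [an_lift]
  have h2 : dd a (dd a y) = - dd a (dd a y) := by
    conv_lhs => rw [h1, Finset.sum_comm]
    rw [h1, ← Finset.sum_neg_distrib]
    refine Finset.sum_congr rfl fun i _ => ?_
    rw [← Finset.sum_neg_distrib]
    refine Finset.sum_congr rfl fun j _ => ?_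
    rw [an_an, map_neg, map_neg, neg_inj]
    ext s
    simp only [lift_apply]
    have := congrArg (fun g : Module.End ℂ N => g (an i (an j y) s)) (ha j i).eq
    simpa using this
  have h3 : (2 : ℂ) • dd a (dd a y) = 0 := by
    rw [two_smul]
    nth_rewrite 1 [h2]
    exact neg_add_cancel _
  exact (smul_eq_zero_iff_right (two_ne_zero)).1 h3

theorem dd_bb (a b : Fin m → Module.End ℂ N) (hab : ∀ i j, Commute (a i) (b j))
    (y : Finset (Fin m) → N) :
    dd a (bb b y) = lift (∑ j, a j * b j) y - bb b (dd a y) := by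
  have h1 : dd a (bb b y) = ∑ i, ∑ j, lift (a i) (lift (b j) (an i (cr j y))) := by
    unfold dd bb
    refine Finset.sum_congr rfl fun i _ => ?_
    rw [map_sum, map_sum]
    refine Finset.sum_congr rfl fun j _ => ?_
    rw [an_lift]
  have h2 : bb b (dd a y) = ∑ i, ∑ j, lift (a i) (lift (b j) (cr j (an i y))) := by
    unfold dd bb
    rw [Finset.sum_comm]
    refine Finset.sum_congr rfl fun j _ => ?_
    rw [map_sum, map_sum]
    refine Finset.sum_congr rfl fun i _ => ?_
    rw [cr_lift]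
    ext s
    simp only [lift_apply]
    have := congrArg (fun g : Module.End ℂ N => g (cr j (an i y) s)) (hab i j).eq
    simpa using this.symm
  rw [eq_sub_iff_add_eq, h1, h2, ← Finset.sum_add_distrib]
  have h3 : ∀ i, (∑ j, lift (a i) (lift (b j) (an i (cr j y)))) +
      (∑ j, lift (a i) (lift (b j) (cr j (an i y)))) = lift (a i) (lift (b i) y) := by
    intro i
    rw [← Finset.sum_add_distrib]
    rw [Finset.sum_eq_single i]
    · rw [← map_add, ← map_add, an_cr, if_pos rfl]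
    · intro j _ hj
      rw [← map_add, ← map_add, an_cr, if_neg (Ne.symm hj), map_zero, map_zero]
    · intro h; exact absurd (Finset.mem_univ i) h
  simp_rw [h3]
  ext s
  simp

end car

section main
variable {N : Type*} [AddCommGroup N] [Module ℂ N] {m : ℕ}

/-- the submodule generated by the ranges of the first `k` endomorphisms -/
def JJ (z : ℕ → Module.End ℂ N) : ℕ → Submodule ℂ N
  | 0 => ⊥
  | (k + 1) => JJ z k ⊔ LinearMap.range (z k)

/-- the projection along `JJ` -/
def QQ (z S : ℕ → Module.End ℂ N) : ℕ → Module.End ℂ N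
  | 0 => 1
  | (k + 1) => QQ z S k * (1 - z k * S k)

theorem JJ_stable {z : ℕ → Module.End ℂ N} {f : Module.End ℂ N} (hf : ∀ i, Commute f (z i))
    (k : ℕ) {x : N} (hx : x ∈ JJ z k) : f x ∈ JJ z k := by
  induction k generalizing x with
  | zero => simp only [JJ, Submodule.mem_bot] at hx ⊢; rw [hx, map_zero]
  | succ k ih =>
    simp only [JJ, Submodule.mem_sup, LinearMap.mem_range] at hx ⊢
    obtain ⟨u, hu, _, ⟨v, rfl⟩, rfl⟩ := hx
    refine ⟨f u, ih hu, z k (f v), ⟨f v, rfl⟩, ?_⟩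
    rw [map_add]
    congr 1
    have := congrArg (fun g : Module.End ℂ N => g v) (hf k).eq
    simpa using this.symm

theorem JJ_succ {z : ℕ → Module.End ℂ N} {k : ℕ} {x : N} (hx : x ∈ JJ z (k + 1)) :
    ∃ v, x - z k v ∈ JJ z k := by
  simp only [JJ, Submodule.mem_sup, LinearMap.mem_range] at hx
  obtain ⟨u, hu, _, ⟨v, rfl⟩, rfl⟩ := hx
  exact ⟨v, by simpa using hu⟩

variable {z S : ℕ → Module.End ℂ N} (hzz : ∀ i j, Commute (z i) (z j))
  (hS : ∀ k, S k * z k = 1) (hSz : ∀ k l, k ≠ l → S k * z l = z l * S k)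
include hzz hS hSz

theorem QQ_mul_lt (k i : ℕ) (hi : i < k) : QQ z S k * z i = 0 := by
  induction k with
  | zero => omega
  | succ k ih =>
    rcases Nat.lt_succ_iff_lt_or_eq.1 hi with h | h
    · have h1 : (1 - z k * S k) * z i = z i * (1 - z k * S k) := by
        rw [sub_mul, mul_sub, one_mul, mul_one, mul_assoc, hSz k i (by omega), ← mul_assoc,
          (hzz k i).eq, mul_assoc]
      rw [QQ, mul_assoc, h1, ← mul_assoc, ih h, zero_mul]
    · subst h
      have h1 : (1 - z i * S i) * z i = 0 := by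
        rw [sub_mul, one_mul, mul_assoc, hS, mul_one, sub_self]
      rw [QQ, mul_assoc, h1, mul_zero]

theorem QQ_mul_ge (k l : ℕ) (hl : k ≤ l) : QQ z S k * z l = z l * QQ z S k := by
  induction k with
  | zero => simp [QQ]
  | succ k ih =>
    have h1 : (1 - z k * S k) * z l = z l * (1 - z k * S k) := by
      rw [sub_mul, mul_sub, one_mul, mul_one, mul_assoc, hSz k l (by omega), ← mul_assoc,
        (hzz k l).eq, mul_assoc]
    rw [QQ, mul_assoc, h1, ← mul_assoc, ih (by omega), mul_assoc]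

theorem QQ_of_mem (k : ℕ) {x : N} (hx : x ∈ JJ z k) : QQ z S k x = 0 := by
  have key : ∀ j ≤ k, ∀ x ∈ JJ z j, QQ z S k x = 0 := by
    intro j
    induction j with
    | zero =>
      intro _ x hx
      simp only [JJ, Submodule.mem_bot] at hx
      rw [hx, map_zero]
    | succ j ih =>
      intro hj x hx
      obtain ⟨v, hv⟩ := JJ_succ hx
      have h1 := ih (by omega) _ hv
      rw [map_sub, sub_eq_zero] at h1
      rw [h1]
      have := congrArg (fun g : Module.End ℂ N => g v) (QQ_mul_lt hzz hS hSz k j (by omega))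
      simpa using this
  exact key k le_rfl x hx

theorem sub_QQ_mem (k : ℕ) (x : N) : x - QQ z S k x ∈ JJ z k := by
  induction k generalizing x with
  | zero => simp [QQ, JJ]
  | succ k ih =>
    have h1 := ih ((1 - z k * S k) x)
    simp only [JJ, Submodule.mem_sup, LinearMap.mem_range]
    refine ⟨_, h1, z k (S k x), ⟨S k x, rfl⟩, ?_⟩
    simp only [QQ, Module.End.mul_apply, LinearMap.sub_apply, Module.End.one_apply]
    abel

theorem regular (k : ℕ) {x : N} (hx : z k x ∈ JJ z k) : x ∈ JJ z k := by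
  have h1 := QQ_of_mem hzz hS hSz k hx
  have h2 := congrArg (fun g : Module.End ℂ N => g x) (QQ_mul_ge hzz hS hSz k k le_rfl)
  simp only [Module.End.mul_apply] at h2
  rw [h1] at h2
  have h3 : S k (z k (QQ z S k x)) = QQ z S k x := by
    have := congrArg (fun g : Module.End ℂ N => g (QQ z S k x)) (hS k)
    simpa using this
  rw [← h2, map_zero] at h3
  have h4 := sub_QQ_mem hzz hS hSz k x
  rwa [← h3, sub_zero] at h4

theorem koszul_step {a : Fin m → Module.End ℂ N} {b : ℕ → Fin m → Module.End ℂ N}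
    (haa : ∀ i j, Commute (a i) (a j)) (hab : ∀ i k j, Commute (a i) (b k j))
    (haz : ∀ i j, Commute (a i) (z j)) (hbz : ∀ k i j, Commute (b k i) (z j))
    (hz : ∀ k ≤ m, z k = ∑ j, a j * b k j) (k : ℕ) (hk : k ≤ m + 1)
    (y : Finset (Fin m) → N) (hy : ∀ s, s.card < k → y s = 0)
    (hdy : ∀ s, dd a y s ∈ JJ z k) :
    ∃ w : Finset (Fin m) → N, ∀ s, (y - dd a w) s ∈ JJ z k := by
  induction hk using Nat.decreasingInduction generalizing y with
  | self =>
    refine ⟨0, fun s => ?_⟩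
    have h1 : y s = 0 := hy s (by
      have := Finset.card_le_univ s
      simp at this
      omega)
    have h2 : dd a (0 : Finset (Fin m) → N) = 0 := by simp [dd]
    rw [h2, sub_zero, h1]
    exact Submodule.zero_mem _
  | of_succ k hk ih =>
    have hmap : ∀ (k : ℕ) (x : Finset (Fin m) → N), (∀ s, x s ∈ JJ z k) →
        ∀ s, dd a x s ∈ JJ z k := by
      intro k x hx s
      simp only [dd, Finset.sum_apply]
      refine Submodule.sum_mem _ fun j _ => ?_
      rw [lift_apply]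
      apply JJ_stable (fun i => haz j i)
      rw [an_apply]
      split_ifs
      · exact Submodule.zero_mem _
      · exact (JJ z k).toAddSubgroup.zsmul_mem (hx _) _
    have hmapb : ∀ (k l : ℕ) (x : Finset (Fin m) → N), (∀ s, x s ∈ JJ z k) →
        ∀ s, bb (b l) x s ∈ JJ z k := by
      intro k l x hx s
      simp only [bb, Finset.sum_apply]
      refine Submodule.sum_mem _ fun j _ => ?_
      rw [lift_apply]
      apply JJ_stable (fun i => hbz l j i)
      rw [cr_apply]
      split_ifs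
      · exact (JJ z k).toAddSubgroup.zsmul_mem (hx _) _
      · exact Submodule.zero_mem _
    have hdb : dd a (bb (b k) y) = lift (z k) y - bb (b k) (dd a y) := by
      rw [dd_bb a (b k) (fun i j => hab i k j), hz k (by omega)]
    have hle : ∀ x, x ∈ JJ z k → x ∈ JJ z (k + 1) := fun x hx => by
      simp only [JJ]; exact Submodule.mem_sup_left hx
    obtain ⟨w, hw⟩ := ih (bb (b k) y) (by
      intro s hs
      simp only [bb, Finset.sum_apply]
      refine Finset.sum_eq_zero fun j _ => ?_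
      rw [lift_apply, cr_apply]
      split_ifs with hj
      · rw [hy _ (by rw [Finset.card_erase_of_mem hj]; have := Finset.card_pos.2 ⟨j, hj⟩; omega),
          smul_zero, map_zero]
      · rw [map_zero]) (by
      intro s
      rw [hdb, Pi.sub_apply]
      refine Submodule.sub_mem _ ?_ (hle _ (hmapb k k _ hdy s))
      simp only [JJ]
      exact Submodule.mem_sup_right ⟨y s, rfl⟩)
    choose v hv using fun s => JJ_succ (hw s)
    -- `bb y - dd w - z v ∈ JJ k`
    have h1 : ∀ s, dd a ((bb (b k) y - dd a w) - lift (z k) v) s ∈ JJ z k :=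
      hmap k _ (fun s => by simpa [lift_apply] using hv s)
    refine ⟨v, fun s => regular hzz hS hSz k ?_⟩
    have h2 : dd a ((bb (b k) y - dd a w) - lift (z k) v) =
        lift (z k) (y - dd a v) - bb (b k) (dd a y) := by
      rw [dd_sub, dd_sub, dd_dd a haa, hdb, dd_lift a (z k) (fun j => (haz j k).symm), map_sub]
      abel
    have h3 := h1 s
    rw [h2, Pi.sub_apply] at h3
    have h4 := Submodule.add_mem _ h3 (hmapb k k _ hdy s)
    rwa [sub_add_cancel, lift_apply] at h4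

theorem koszul_main {a : Fin m → Module.End ℂ N} {b : ℕ → Fin m → Module.End ℂ N}
    (haa : ∀ i j, Commute (a i) (a j)) (hab : ∀ i k j, Commute (a i) (b k j))
    (haz : ∀ i j, Commute (a i) (z j)) (hbz : ∀ k i j, Commute (b k i) (z j))
    (hz : ∀ k ≤ m, z k = ∑ j, a j * b k j) (u : N) :
    ∃ w : Fin m → N, u = ∑ j, a j (w j) := by
  set y : Finset (Fin m) → N := fun s => if s = ∅ then u else 0 with hy
  have hdy : dd a y = 0 := by
    ext s
    simp only [dd, Finset.sum_apply]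
    refine Finset.sum_eq_zero fun j _ => ?_
    rw [lift_apply, an_apply]
    split_ifs with h
    · rw [map_zero]
    · have : y (insert j s) = 0 := by
        rw [hy]; simp
      rw [this, smul_zero, map_zero]
  obtain ⟨w, hw⟩ := koszul_step hzz hS hSz haa hab haz hbz hz 0 (by omega) y
    (fun s hs => by omega) (fun s => by rw [hdy]; exact Submodule.zero_mem _)
  have h1 := hw ∅
  simp only [JJ, Submodule.mem_bot, Pi.sub_apply, sub_eq_zero] at h1
  refine ⟨fun j => sg j (∅ : Finset (Fin m)) • w {j}, ?_⟩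
  have h2 : y ∅ = u := by rw [hy]; simp
  rw [← h2, h1]
  simp only [dd, Finset.sum_apply]
  refine Finset.sum_congr rfl fun j _ => ?_
  rw [lift_apply, an_apply]
  simp

end main

/-! ### The Banach space `H` and its operators -/

/-- index set of the underlying Banach space -/
structure Idx where
  al : ℕ → ℕ
  sb : ℕ → Bool

theorem Idx.ext' {x y : Idx} (h1 : x.al = y.al) (h2 : x.sb = y.sb) : x = y := by
  cases x; cases y; simp_all

instance : TopologicalSpace Idx := ⊥
instance : DiscreteTopology Idx := ⟨rfl⟩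

/-- the Banach space of bounded functions on `Idx` -/
abbrev H := BoundedContinuousFunction Idx ℂ

/-- masked composition, as a function -/
noncomputable def Tfun (φ : Idx → Idx) (χ : Idx → Bool) (h : H) : H :=
  BoundedContinuousFunction.ofNormedAddCommGroupDiscrete
    (fun x => if χ x then h (φ x) else 0) ‖h‖ (fun x => by
      split_ifs
      · exact h.norm_coe_le_norm _
      · simp)

theorem Tfun_apply (φ : Idx → Idx) (χ : Idx → Bool) (h : H) (x : Idx) :
    Tfun φ χ h x = if χ x then h (φ x) else 0 := rfl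

/-- masked composition operator -/
noncomputable def T (φ : Idx → Idx) (χ : Idx → Bool) : H →L[ℂ] H :=
  LinearMap.mkContinuous
    { toFun := Tfun φ χ
      map_add' := fun x y => by
        ext i; simp only [Tfun_apply, BoundedContinuousFunction.coe_add, Pi.add_apply]
        split_ifs <;> simp
      map_smul' := fun c x => by
        ext i; simp only [Tfun_apply, BoundedContinuousFunction.coe_smul, RingHom.id_apply]
        split_ifs <;> simp } 1 (fun h => by
      rw [one_mul]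
      refine (BoundedContinuousFunction.norm_le (norm_nonneg _)).2 fun x => ?_
      show ‖Tfun φ χ h x‖ ≤ _
      rw [Tfun_apply]
      split_ifs
      · exact h.norm_coe_le_norm _
      · simp)

theorem T_apply (φ : Idx → Idx) (χ : Idx → Bool) (h : H) (x : Idx) :
    T φ χ h x = if χ x then h (φ x) else 0 := rfl

theorem norm_T (φ : Idx → Idx) (χ : Idx → Bool) : ‖T φ χ‖ ≤ 1 :=
  LinearMap.mkContinuous_norm_le _ zero_le_one _

/-- raise the `k`-th exponent -/
def inc (k : ℕ) (x : Idx) : Idx := ⟨Function.update x.al k (x.al k + 1), x.sb⟩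
/-- lower the `k`-th exponent -/
def dec (k : ℕ) (x : Idx) : Idx := ⟨Function.update x.al k (x.al k - 1), x.sb⟩
/-- set the `n`-th bit -/
def setb (n : ℕ) (v : Bool) (x : Idx) : Idx := ⟨x.al, Function.update x.sb n v⟩

/-- forward shifts -/
noncomputable def Z (k : ℕ) : H →L[ℂ] H := T (dec k) (fun x => decide (x.al k ≠ 0))
/-- backward shifts -/
noncomputable def Sh (k : ℕ) : H →L[ℂ] H := T (inc k) (fun _ => true)
/-- bit creation -/
noncomputable def U (n : ℕ) : H →L[ℂ] H := T (setb n false) (fun x => x.sb n)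
/-- bit annihilation -/
noncomputable def V (n : ℕ) : H →L[ℂ] H := T (setb n true) (fun x => !x.sb n)

/-- base point -/
def x0 : Idx := ⟨fun _ => 0, fun _ => false⟩

/-- evaluation at the base point -/
noncomputable def om : H →L[ℂ] ℂ := BoundedContinuousFunction.evalCLM ℂ x0

theorem om_apply (h : H) : om h = h x0 := rfl

theorem Z_apply (k : ℕ) (h : H) (x : Idx) :
    Z k h x = if x.al k = 0 then 0 else h (dec k x) := by
  simp only [Z, T_apply, decide_eq_true_eq, ite_not]

theorem Sh_apply (k : ℕ) (h : H) (x : Idx) : Sh k h x = h (inc k x) := by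
  simp only [Sh, T_apply, if_true]

theorem U_apply (n : ℕ) (h : H) (x : Idx) :
    U n h x = if x.sb n = true then h (setb n false x) else 0 := rfl

theorem V_apply (n : ℕ) (h : H) (x : Idx) :
    V n h x = if x.sb n = true then 0 else h (setb n true x) := by
  simp only [V, T_apply]
  cases x.sb n <;> simp

theorem Sh_Z (k : ℕ) : Sh k * Z k = 1 := by
  ext h x
  simp only [mul_apply_eq_comp, Sh_apply, Z_apply, one_apply_eq_self]
  rw [if_neg (by simp [inc])]
  congr 1
  exact Idx.ext' (by simp [inc, dec]) rfl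

theorem Sh_Z_ne {k l : ℕ} (h : k ≠ l) : Sh k * Z l = Z l * Sh k := by
  ext f x
  simp only [mul_apply_eq_comp, Sh_apply, Z_apply]
  have h1 : (inc k x).al l = x.al l := by simp [inc, Function.update_of_ne (Ne.symm h)]
  rw [h1]
  by_cases h0 : x.al l = 0
  · rw [if_pos h0, if_pos h0]
  · rw [if_neg h0, if_neg h0]
    congr 1
    refine Idx.ext' ?_ rfl
    simp only [inc, dec]
    rw [Function.update_comm h, Function.update_of_ne (Ne.symm h), Function.update_of_ne h]

theorem Z_Z (k l : ℕ) : Commute (Z k) (Z l) := by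
  by_cases h : k = l
  · subst h; exact Commute.refl _
  · ext f x
    simp only [mul_apply_eq_comp, Z_apply]
    have h1 : (dec k x).al l = x.al l := by simp [dec, Function.update_of_ne (Ne.symm h)]
    have h2 : (dec l x).al k = x.al k := by simp [dec, Function.update_of_ne h]
    rw [h1, h2]
    by_cases h0 : x.al k = 0
    · simp [h0]
    · by_cases h3 : x.al l = 0
      · simp [h3]
      · rw [if_neg h0, if_neg h3, if_neg h3, if_neg h0]
        congr 1
        refine Idx.ext' ?_ rfl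
        simp only [dec]
        rw [Function.update_comm h, Function.update_of_ne (Ne.symm h), Function.update_of_ne h]

theorem Z_U (k n : ℕ) : Commute (Z k) (U n) := by
  ext f x
  simp only [mul_apply_eq_comp, Z_apply, U_apply]
  have h1 : (dec k x).sb = x.sb := rfl
  have h2 : (setb n false x).al = x.al := rfl
  rw [h1, h2]
  by_cases h0 : x.al k = 0
  · simp [h0]
  · by_cases h3 : x.sb n = true
    · rw [if_neg h0, if_pos h3, if_pos h3, if_neg h0]; rfl
    · simp [h3]

theorem Z_V (k n : ℕ) : Commute (Z k) (V n) := by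
  ext f x
  simp only [mul_apply_eq_comp, Z_apply, V_apply]
  have h1 : (dec k x).sb = x.sb := rfl
  have h2 : (setb n true x).al = x.al := rfl
  rw [h1, h2]
  by_cases h0 : x.al k = 0
  · simp [h0]
  · by_cases h3 : x.sb n = true
    · simp [h3]
    · rw [if_neg h0, if_neg h3, if_neg h3, if_neg h0]; rfl

theorem setb_comm {n m : ℕ} (h : n ≠ m) (v w : Bool) (x : Idx) :
    setb n v (setb m w x) = setb m w (setb n v x) :=
  Idx.ext' rfl (by simp only [setb]; rw [Function.update_comm (Ne.symm h)])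

theorem U_U {n m : ℕ} (h : n ≠ m) : Commute (U n) (U m) := by
  ext f x
  simp only [mul_apply_eq_comp, U_apply]
  have h1 : (setb n false x).sb m = x.sb m := by simp [setb, Function.update_of_ne (Ne.symm h)]
  have h2 : (setb m false x).sb n = x.sb n := by simp [setb, Function.update_of_ne h]
  rw [h1, h2, setb_comm h]
  by_cases h3 : x.sb n = true <;> by_cases h4 : x.sb m = true <;> simp [h3, h4]

theorem V_V {n m : ℕ} (h : n ≠ m) : Commute (V n) (V m) := by
  ext f x
  simp only [mul_apply_eq_comp, V_apply]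
  have h1 : (setb n true x).sb m = x.sb m := by simp [setb, Function.update_of_ne (Ne.symm h)]
  have h2 : (setb m true x).sb n = x.sb n := by simp [setb, Function.update_of_ne h]
  rw [h1, h2, setb_comm h]
  by_cases h3 : x.sb n = true <;> by_cases h4 : x.sb m = true <;> simp [h3, h4]

theorem U_V {n m : ℕ} (h : n ≠ m) : Commute (U n) (V m) := by
  ext f x
  simp only [mul_apply_eq_comp, V_apply, U_apply]
  have h1 : (setb n false x).sb m = x.sb m := by simp [setb, Function.update_of_ne (Ne.symm h)]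
  have h2 : (setb m true x).sb n = x.sb n := by simp [setb, Function.update_of_ne h]
  rw [h1, h2, setb_comm h]
  by_cases h3 : x.sb n = true <;> by_cases h4 : x.sb m = true <;> simp [h3, h4]

theorem U_sq (n : ℕ) : U n * U n = 0 := by
  ext f x
  simp only [mul_apply_eq_comp, U_apply, setb]
  simp

theorem V_sq (n : ℕ) : V n * V n = 0 := by
  ext f x
  simp only [mul_apply_eq_comp, V_apply, setb]
  simp

theorem UV_add_VU (n : ℕ) : U n * V n + V n * U n = 1 := by
  ext f x
  simp only [mul_apply_eq_comp, add_apply,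
    BoundedContinuousFunction.coe_add, Pi.add_apply, U_apply, V_apply,
    one_apply_eq_self]
  by_cases h : x.sb n = true
  · rw [if_pos h, if_pos h, if_neg (by simp [setb]), add_zero]
    congr 1
    refine Idx.ext' rfl ?_
    simp only [setb, Function.update_idem]
    conv_rhs => rw [← Function.update_eq_self n x.sb, h]
  · rw [if_neg h, if_neg h, if_pos (by simp [setb]), zero_add]
    congr 1
    refine Idx.ext' rfl ?_
    simp only [setb, Function.update_idem]
    have h' : x.sb n = false := by simpa using h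
    conv_rhs => rw [← Function.update_eq_self n x.sb, h']

theorem om_Z (k : ℕ) : om.comp (Z k) = 0 := by
  ext f
  simp [om_apply, Z_apply, x0]

theorem om_U (n : ℕ) : om.comp (U n) = 0 := by
  ext f
  simp [om_apply, U_apply, x0]

theorem norm_Z (k : ℕ) : ‖Z k‖ ≤ 1 := norm_T _ _
theorem norm_Sh (k : ℕ) : ‖Sh k‖ ≤ 1 := norm_T _ _
theorem norm_U (k : ℕ) : ‖U k‖ ≤ 1 := norm_T _ _
theorem norm_V (k : ℕ) : ‖V k‖ ≤ 1 := norm_T _ _

/-! ### The tower of square roots -/

abbrev B := H →L[ℂ] H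
abbrev B2 := (H × ℂ) →L[ℂ] (H × ℂ)

theorem comm_smul {W X : B} (h : Commute W X) (c : ℂ) : Commute W (c • X) := by
  have h' : ∀ f, W (X f) = X (W f) := fun f => congrArg (fun g : B => g f) h.eq
  apply ContinuousLinearMap.ext
  intro f
  rw [mul_apply_eq_comp, mul_apply_eq_comp]
  show W (c • X f) = c • X (W f)
  rw [map_smul, h']

theorem comm_one_smul (W : B) (c : ℂ) : Commute W (c • (1 : B)) :=
  comm_smul (Commute.one_right W) c

/-- the embedding `h ↦ (h, K om h)` -/
noncomputable def jj (K : ℕ) : H →L[ℂ] H × ℂ := (ContinuousLinearMap.id ℂ H).prod ((K : ℂ) • om)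

/-- the representation of `B` on `H × ℂ` -/
noncomputable def pr (K : ℕ) : B →ₗ[ℂ] B2 where
  toFun X := (jj K).comp (X.comp (ContinuousLinearMap.fst ℂ H ℂ))
  map_add' X Y := by
    ext <;> simp
  map_smul' c X := by
    ext <;> simp

theorem pr_apply (K : ℕ) (X : B) (p : H × ℂ) : pr K X p = (X p.1, (K : ℂ) * om (X p.1)) := rfl

theorem pr_mul (K : ℕ) (X Y : B) : pr K (X * Y) = pr K X * pr K Y := by
  apply ContinuousLinearMap.ext
  intro p
  rw [mul_apply_eq_comp, pr_apply, pr_apply, pr_apply]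
  rfl

/-- compression to the first coordinate -/
noncomputable def rho : B2 →L[ℂ] B :=
  ((ContinuousLinearMap.compL ℂ H (H × ℂ) H (ContinuousLinearMap.fst ℂ H ℂ))).comp
    ((ContinuousLinearMap.compL ℂ H (H × ℂ) (H × ℂ)).flip (ContinuousLinearMap.inl ℂ H ℂ))

theorem rho_apply (q : B2) (h : H) : rho q h = (q (h, 0)).1 := rfl

theorem rho_pr (K : ℕ) (X : B) : rho (pr K X) = X := by
  apply ContinuousLinearMap.ext
  intro h
  rw [rho_apply, pr_apply]

theorem norm_rho (q : B2) : ‖rho q‖ ≤ ‖q‖ := by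
  refine ContinuousLinearMap.opNorm_le_bound _ (norm_nonneg _) fun h => ?_
  rw [rho_apply]
  calc ‖(q (h, 0)).1‖ ≤ ‖q (h, 0)‖ := norm_fst_le _
    _ ≤ ‖q‖ * ‖((h, 0) : H × ℂ)‖ := q.le_opNorm _
    _ = ‖q‖ * ‖h‖ := by rw [Prod.norm_mk, norm_zero, max_eq_left (norm_nonneg _)]

theorem le_norm_pr (K : ℕ) (X : B) : ‖X‖ ≤ ‖pr K X‖ := by
  conv_lhs => rw [← rho_pr K X]
  exact norm_rho _

theorem om_le_norm_pr (K : ℕ) (X : B) : (K : ℝ) * ‖om.comp X‖ ≤ ‖pr K X‖ := by
  have h1 : ‖((K : ℂ) • om.comp X)‖ ≤ ‖pr K X‖ := by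
    refine ContinuousLinearMap.opNorm_le_bound _ (norm_nonneg _) fun h => ?_
    calc ‖((K : ℂ) • om.comp X) h‖ = ‖(pr K X (h, 0)).2‖ := rfl
      _ ≤ ‖pr K X (h, 0)‖ := norm_snd_le _
      _ ≤ ‖pr K X‖ * ‖((h, 0) : H × ℂ)‖ := ContinuousLinearMap.le_opNorm _ _
      _ = ‖pr K X‖ * ‖h‖ := by rw [Prod.norm_mk, norm_zero, max_eq_left (norm_nonneg _)]
  rwa [norm_smul, Complex.norm_natCast] at h1

theorem norm_pr_le (K : ℕ) (X : B) {C : ℝ} (h1 : ‖X‖ ≤ C) (h2 : (K : ℝ) * ‖om.comp X‖ ≤ C) :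
    ‖pr K X‖ ≤ C := by
  have hC : 0 ≤ C := (norm_nonneg _).trans h1
  refine ContinuousLinearMap.opNorm_le_bound _ hC fun p => ?_
  rw [pr_apply, Prod.norm_mk]
  refine max_le ?_ ?_
  · calc ‖X p.1‖ ≤ ‖X‖ * ‖p.1‖ := X.le_opNorm _
      _ ≤ C * ‖p‖ := mul_le_mul h1 (norm_fst_le p) (norm_nonneg _) hC
  · calc ‖(K : ℂ) * om (X p.1)‖ = K * ‖om.comp X p.1‖ := by
          rw [norm_mul, Complex.norm_natCast]; rfl
      _ ≤ K * (‖om.comp X‖ * ‖p.1‖) :=
          mul_le_mul_of_nonneg_left (ContinuousLinearMap.le_opNorm _ _) (Nat.cast_nonneg K)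
      _ = (K * ‖om.comp X‖) * ‖p.1‖ := by ring
      _ ≤ C * ‖p‖ := mul_le_mul h2 (norm_fst_le p) (norm_nonneg _) hC

theorem norm_pr_mul_V (K : ℕ) (G : B) (n : ℕ) : ‖pr K (G * V n)‖ ≤ ‖pr K G‖ := by
  refine norm_pr_le K _ ?_ ?_
  · calc ‖G * V n‖ ≤ ‖G‖ * ‖V n‖ := norm_mul_le _ _
      _ ≤ ‖G‖ * 1 := mul_le_mul_of_nonneg_left (norm_V n) (norm_nonneg _)
      _ ≤ ‖pr K G‖ := by rw [mul_one]; exact le_norm_pr K G
  · have : om.comp (G * V n) = (om.comp G).comp (V n) := rfl
    rw [this]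
    calc (K : ℝ) * ‖(om.comp G).comp (V n)‖ ≤ K * (‖om.comp G‖ * ‖V n‖) :=
          mul_le_mul_of_nonneg_left (ContinuousLinearMap.opNorm_comp_le _ _) (Nat.cast_nonneg K)
      _ ≤ K * (‖om.comp G‖ * 1) := by
          gcongr
          exact norm_V n
      _ ≤ ‖pr K G‖ := by rw [mul_one]; exact om_le_norm_pr K G

theorem norm_pr_U (K : ℕ) (n : ℕ) : ‖pr K (U n)‖ ≤ 1 := by
  refine norm_pr_le K _ (norm_U n) ?_
  rw [om_U, norm_zero, mul_zero]; exact zero_le_one

theorem norm_pr_Z (K : ℕ) (n : ℕ) : ‖pr K (Z n)‖ ≤ 1 := by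
  refine norm_pr_le K _ (norm_Z n) ?_
  rw [om_Z, norm_zero, mul_zero]; exact zero_le_one

/-- Gaussian rational scalars -/
noncomputable def gq (q : ℚ × ℚ) : ℂ := (q.1 : ℂ) + (q.2 : ℂ) * Complex.I

/-- generators of stage `i` -/
def gen (y : ℕ → B) (i : ℕ) : Set B :=
  Set.range Z ∪ (y '' Set.Iio i) ∪ Set.range (fun q : ℚ × ℚ => gq q • (1 : B))

/-- the countable ring of stage `i` -/
noncomputable def DD (y : ℕ → B) (i : ℕ) : Subalgebra ℤ B := Algebra.adjoin ℤ (gen y i)

theorem gen_countable (y : ℕ → B) (i : ℕ) : (gen y i).Countable :=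
  ((Set.countable_range _).union ((Set.to_countable _).image _)).union (Set.countable_range _)

theorem countable_adjoin_int {s : Set B} (hs : s.Countable) :
    ((Algebra.adjoin ℤ s : Subalgebra ℤ B) : Set B).Countable := by
  have h1 := Algebra.lift_cardinalMk_adjoin_le ℤ s
  rw [← Set.countable_coe_iff, ← Cardinal.mk_le_aleph0_iff]
  have h2 : Cardinal.mk s ≤ Cardinal.aleph0 := Cardinal.mk_le_aleph0_iff.2 hs.to_subtype
  have h3 : Cardinal.mk ℤ ≤ Cardinal.aleph0 := Cardinal.mk_le_aleph0_iff.2 inferInstance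
  simp only [Cardinal.lift_id] at h1
  exact h1.trans (max_le (max_le h3 h2) le_rfl)

open Classical in
/-- an enumeration of a countable set -/
noncomputable def enum (s : Set B) : ℕ → B :=
  if h : s.Countable ∧ s.Nonempty then Classical.choose (h.1.exists_eq_range h.2) else 0

theorem enum_spec {s : Set B} (h1 : s.Countable) (h2 : s.Nonempty) : s = Set.range (enum s) := by
  have h : s.Countable ∧ s.Nonempty := ⟨h1, h2⟩
  unfold enum
  rw [dif_pos h]
  exact Classical.choose_spec (h1.exists_eq_range h2)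

/-- the element treated at step `n` -/
noncomputable def Fsel (y : ℕ → B) (n : ℕ) : B :=
  enum (DD y (Nat.unpair n).1 : Set B) (Nat.unpair n).2

/-- its normalisation -/
noncomputable def Gsel (K : ℕ) (y : ℕ → B) (n : ℕ) : B :=
  ((‖pr K (Fsel y n)‖⁻¹ : ℝ) : ℂ) • Fsel y n

/-- the tower of square roots, first `m` steps -/
noncomputable def Yst (K : ℕ) : ℕ → (ℕ → B)
  | 0 => fun _ => 0
  | (m + 1) => Function.update (Yst K m) m (U m + Gsel K (Yst K m) m * V m)

/-- the tower of square roots -/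
noncomputable def Y (K : ℕ) (n : ℕ) : B := Yst K (n + 1) n

theorem Yst_eq (K : ℕ) (m l : ℕ) (h : l < m) : Yst K m l = Y K l := by
  induction m with
  | zero => omega
  | succ m ih =>
    rcases Nat.lt_succ_iff_lt_or_eq.1 h with h1 | h1
    · rw [Yst, Function.update_of_ne (by omega), ih h1]
    · subst h1; rfl

theorem gen_congr {y y' : ℕ → B} {i : ℕ} (h : ∀ l < i, y l = y' l) : gen y i = gen y' i := by
  unfold gen
  have : y '' Set.Iio i = y' '' Set.Iio i := Set.image_congr (fun l hl => h l hl)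
  rw [this]

theorem Fsel_congr {y y' : ℕ → B} {n : ℕ} (h : ∀ l < n, y l = y' l) : Fsel y n = Fsel y' n := by
  unfold Fsel DD
  rw [gen_congr (fun l hl => h l (lt_of_lt_of_le hl (Nat.unpair_left_le n)))]

theorem Y_eq (K n : ℕ) : Y K n = U n + Gsel K (Y K) n * V n := by
  have h1 : Gsel K (Yst K n) n = Gsel K (Y K) n := by
    unfold Gsel
    rw [Fsel_congr (y' := Y K) (fun l hl => Yst_eq K n l hl)]
  have h2 : Y K n = U n + Gsel K (Yst K n) n * V n := by
    unfold Y
    rw [Yst, Function.update_self]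
  rw [h2, h1]

theorem gen_mono (y : ℕ → B) {i j : ℕ} (h : i ≤ j) : gen y i ⊆ gen y j := by
  unfold gen
  apply Set.union_subset_union_left
  apply Set.union_subset_union_right
  exact Set.image_mono (Set.Iio_subset_Iio h)

theorem DD_mono (y : ℕ → B) {i j : ℕ} (h : i ≤ j) : DD y i ≤ DD y j :=
  Algebra.adjoin_mono (gen_mono y h)

theorem Fsel_mem (y : ℕ → B) (n : ℕ) : Fsel y n ∈ DD y n := by
  have h1 : Fsel y n ∈ (DD y (Nat.unpair n).1 : Set B) := by
    have h2 := enum_spec (countable_adjoin_int (gen_countable y (Nat.unpair n).1))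
      ⟨0, Subalgebra.zero_mem (DD y (Nat.unpair n).1)⟩
    have h3 : Fsel y n ∈ Set.range (enum (DD y (Nat.unpair n).1 : Set B)) := ⟨_, rfl⟩
    rw [DD] at h3 ⊢
    rw [h2]
    exact h3
  exact DD_mono y (Nat.unpair_left_le n) h1

theorem exists_Fsel (y : ℕ → B) {i : ℕ} {X : B} (hX : X ∈ DD y i) : ∃ n, Fsel y n = X := by
  have h2 := enum_spec (countable_adjoin_int (gen_countable y i))
      ⟨0, Subalgebra.zero_mem (DD y i)⟩
  have h3 : X ∈ ((Algebra.adjoin ℤ (gen y i) : Subalgebra ℤ B) : Set B) := hX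
  rw [h2] at h3
  obtain ⟨j, hj⟩ := h3
  refine ⟨Nat.pair i j, ?_⟩
  rw [Fsel, Nat.unpair_pair]
  exact hj

theorem commute_of_gen {y : ℕ → B} {i : ℕ} {W : B} (hW : ∀ X ∈ gen y i, Commute W X) :
    ∀ X ∈ DD y i, Commute W X := by
  intro X hX
  refine Algebra.adjoin_induction (p := fun X _ => Commute W X) (fun x hx => hW x hx)
    (fun r => (Algebra.commutes r W).symm) (fun x y _ _ hx hy => hx.add_right hy)
    (fun x y _ _ hx hy => hx.mul_right hy) hX

theorem commute_gen {y : ℕ → B} {i : ℕ} {W : B} (hZ : ∀ k, Commute W (Z k))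
    (hy : ∀ l < i, Commute W (y l)) : ∀ X ∈ gen y i, Commute W X := by
  rintro X ((⟨k, rfl⟩ | ⟨l, hl, rfl⟩) | ⟨q, rfl⟩)
  · exact hZ k
  · exact hy l hl
  · exact comm_one_smul W _

theorem Y_comm (K n : ℕ) : (∀ k, Commute (Y K n) (Z k)) ∧ (∀ l < n, Commute (Y K n) (Y K l)) ∧
    (∀ m, n < m → Commute (Y K n) (U m) ∧ Commute (Y K n) (V m)) := by
  induction n using Nat.strong_induction_on with
  | _ n ih =>
    -- `G` commutes with everything that commutes with the generators
    have hG : ∀ W : B, (∀ k, Commute W (Z k)) → (∀ l < n, Commute W (Y K l)) →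
        Commute W (Gsel K (Y K) n) := by
      intro W h1 h2
      unfold Gsel
      exact comm_smul (commute_of_gen (commute_gen h1 h2) _ (Fsel_mem (Y K) n)) _
    have hGZ : ∀ k, Commute (Gsel K (Y K) n) (Z k) := fun k =>
      (hG (Z k) (fun l => Z_Z k l) (fun l hl => ((ih l hl).1 k).symm)).symm
    have hYY : ∀ l < n, ∀ l' < n, Commute (Y K l) (Y K l') := by
      intro l hl l' hl'
      rcases lt_trichotomy l l' with h | h | h
      · exact ((ih l' hl').2.1 l h).symm
      · rw [h]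
      · exact (ih l hl).2.1 l' h
    have hGY : ∀ l < n, Commute (Gsel K (Y K) n) (Y K l) := fun l hl =>
      (hG (Y K l) (fun k => (ih l hl).1 k) (fun l' hl' => hYY l hl l' hl')).symm
    have hGU : ∀ m, n ≤ m → Commute (Gsel K (Y K) n) (U m) := fun m hm =>
      (hG (U m) (fun k => (Z_U k m).symm) (fun l hl => ((ih l hl).2.2 m (by omega)).1.symm)).symm
    have hGV : ∀ m, n ≤ m → Commute (Gsel K (Y K) n) (V m) := fun m hm =>
      (hG (V m) (fun k => (Z_V k m).symm) (fun l hl => ((ih l hl).2.2 m (by omega)).2.symm)).symm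
    rw [Y_eq]
    refine ⟨fun k => ?_, fun l hl => ?_, fun m hm => ⟨?_, ?_⟩⟩
    · exact (Z_U k n).symm.add_left ((hGZ k).mul_left (Z_V k n).symm)
    · exact ((ih l hl).2.2 n hl).1.symm.add_left ((hGY l hl).mul_left ((ih l hl).2.2 n hl).2.symm)
    · exact (U_U (by omega)).add_left ((hGU m hm.le).mul_left (U_V (by omega : m ≠ n)).symm)
    · exact (U_V (by omega)).add_left ((hGV m hm.le).mul_left (V_V (by omega)))

theorem Y_Y (K : ℕ) (l l' : ℕ) : Commute (Y K l) (Y K l') := by
  rcases lt_trichotomy l l' with h | h | h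
  · exact ((Y_comm K l').2.1 l h).symm
  · rw [h]
  · exact (Y_comm K l).2.1 l' h

theorem gen_comm (K : ℕ) {i : ℕ} : ∀ X ∈ gen (Y K) i, ∀ X' ∈ gen (Y K) i, Commute X X' := by
  rintro X ((⟨k, rfl⟩ | ⟨l, hl, rfl⟩) | ⟨q, rfl⟩)
  · exact commute_gen (fun l => Z_Z k l) (fun l _ => ((Y_comm K l).1 k).symm)
  · exact commute_gen (fun k => (Y_comm K l).1 k) (fun l' _ => Y_Y K l l')
  · exact fun X' _ => (comm_one_smul X' _).symm

theorem DD_comm (K : ℕ) {i : ℕ} {X X' : B} (hX : X ∈ DD (Y K) i) (hX' : X' ∈ DD (Y K) i) :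
    Commute X X' := by
  refine commute_of_gen (fun W hW => ?_) X' hX'
  exact (commute_of_gen (fun W' hW' => gen_comm K W hW W' hW') X hX).symm

theorem Y_sq (K n : ℕ) : Y K n * Y K n = Gsel K (Y K) n := by
  have hG : ∀ W : B, (∀ k, Commute W (Z k)) → (∀ l < n, Commute W (Y K l)) →
      Commute W (Gsel K (Y K) n) := by
    intro W h1 h2
    unfold Gsel
    exact comm_smul (commute_of_gen (commute_gen h1 h2) _ (Fsel_mem (Y K) n)) _
  have hGU : Commute (U n) (Gsel K (Y K) n) :=
    hG (U n) (fun k => (Z_U k n).symm) (fun l hl => ((Y_comm K l).2.2 n hl).1.symm)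
  have hGV : Commute (V n) (Gsel K (Y K) n) :=
    hG (V n) (fun k => (Z_V k n).symm) (fun l hl => ((Y_comm K l).2.2 n hl).2.symm)
  rw [Y_eq]
  set G := Gsel K (Y K) n
  have h1 : U n * (G * V n) = G * (U n * V n) := by rw [← mul_assoc, hGU.eq, mul_assoc]
  have h2 : G * V n * (G * V n) = 0 := by
    rw [mul_assoc, ← mul_assoc (V n), hGV.eq, mul_assoc G, V_sq, mul_zero, mul_zero]
  rw [add_mul, mul_add, mul_add, U_sq, h1, h2, zero_add, add_zero, mul_assoc G, ← mul_add,
    UV_add_VU, mul_one]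

theorem norm_pr_Gsel (K : ℕ) (y : ℕ → B) (n : ℕ) : ‖pr K (Gsel K y n)‖ ≤ 1 := by
  unfold Gsel
  rw [map_smul, norm_smul, Complex.norm_real, norm_inv, norm_norm]
  exact inv_mul_le_one

theorem norm_pr_Y (K n : ℕ) : ‖pr K (Y K n)‖ ≤ 2 := by
  rw [Y_eq, map_add]
  calc ‖pr K (U n) + pr K (Gsel K (Y K) n * V n)‖
      ≤ ‖pr K (U n)‖ + ‖pr K (Gsel K (Y K) n * V n)‖ := norm_add_le _ _
    _ ≤ 1 + 1 := add_le_add (norm_pr_U K n) ((norm_pr_mul_V K _ n).trans (norm_pr_Gsel K _ n))
    _ = 2 := by norm_num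

/-! ### The closed algebras -/

/-- the union of all stages -/
def Dinf (K : ℕ) : Set B := ⋃ i, (DD (Y K) i : Set B)

theorem Dinf_pair {K : ℕ} {X X' : B} (h : X ∈ Dinf K) (h' : X' ∈ Dinf K) :
    ∃ i, X ∈ DD (Y K) i ∧ X' ∈ DD (Y K) i := by
  obtain ⟨i, hi⟩ := Set.mem_iUnion.1 h
  obtain ⟨j, hj⟩ := Set.mem_iUnion.1 h'
  exact ⟨max i j, DD_mono _ (le_max_left i j) hi, DD_mono _ (le_max_right i j) hj⟩

theorem Dinf_add {K : ℕ} {X X' : B} (h : X ∈ Dinf K) (h' : X' ∈ Dinf K) : X + X' ∈ Dinf K := by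
  obtain ⟨i, h1, h2⟩ := Dinf_pair h h'
  exact Set.mem_iUnion.2 ⟨i, Subalgebra.add_mem _ h1 h2⟩

theorem Dinf_mul {K : ℕ} {X X' : B} (h : X ∈ Dinf K) (h' : X' ∈ Dinf K) : X * X' ∈ Dinf K := by
  obtain ⟨i, h1, h2⟩ := Dinf_pair h h'
  exact Set.mem_iUnion.2 ⟨i, Subalgebra.mul_mem _ h1 h2⟩

theorem Dinf_comm {K : ℕ} {X X' : B} (h : X ∈ Dinf K) (h' : X' ∈ Dinf K) : X * X' = X' * X := by
  obtain ⟨i, h1, h2⟩ := Dinf_pair h h'
  exact DD_comm K h1 h2

theorem Dinf_gq {K : ℕ} {X : B} (h : X ∈ Dinf K) (q : ℚ × ℚ) : gq q • X ∈ Dinf K := by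
  obtain ⟨i, hi⟩ := Set.mem_iUnion.1 h
  refine Set.mem_iUnion.2 ⟨i, ?_⟩
  have h1 : gq q • X = (gq q • (1 : B)) * X := by
    apply ContinuousLinearMap.ext
    intro f
    rw [mul_apply_eq_comp]
    rfl
  rw [h1]
  exact Subalgebra.mul_mem _ (Algebra.subset_adjoin (Or.inr ⟨q, rfl⟩)) hi

theorem Dinf_zero (K : ℕ) : (0 : B) ∈ Dinf K := Set.mem_iUnion.2 ⟨0, Subalgebra.zero_mem _⟩
theorem Dinf_one (K : ℕ) : (1 : B) ∈ Dinf K := Set.mem_iUnion.2 ⟨0, Subalgebra.one_mem _⟩
theorem Dinf_Z (K k : ℕ) : Z k ∈ Dinf K :=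
  Set.mem_iUnion.2 ⟨0, Algebra.subset_adjoin (Or.inl (Or.inl ⟨k, rfl⟩))⟩
theorem Dinf_Y (K n : ℕ) : Y K n ∈ Dinf K :=
  Set.mem_iUnion.2 ⟨n + 1, Algebra.subset_adjoin (Or.inl (Or.inr ⟨n, Nat.lt_succ_self n, rfl⟩))⟩

theorem Dinf_countable (K : ℕ) : (Dinf K).Countable :=
  Set.countable_iUnion fun i => countable_adjoin_int (gen_countable (Y K) i)

theorem pr_continuous (K : ℕ) : Continuous (pr K) := by
  show Continuous fun X : B => (jj K).comp (X.comp (ContinuousLinearMap.fst ℂ H ℂ))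
  fun_prop

/-- the closed algebra with parameter `K` -/
def Qs (K : ℕ) : Set B2 := closure (pr K '' Dinf K)

theorem Qs_closed (K : ℕ) : IsClosed (Qs K) := isClosed_closure

theorem mem_Qs {K : ℕ} {X : B} (h : X ∈ Dinf K) : pr K X ∈ Qs K := subset_closure ⟨X, h, rfl⟩

theorem Qs_zero (K : ℕ) : (0 : B2) ∈ Qs K := by
  have := mem_Qs (Dinf_zero K)
  rwa [map_zero] at this

theorem Qs_add {K : ℕ} {x y : B2} (hx : x ∈ Qs K) (hy : y ∈ Qs K) : x + y ∈ Qs K := by
  refine map_mem_closure₂ (f := fun a b : B2 => a + b) (by exact continuous_add) hx hy ?_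
  rintro _ ⟨X, hX, rfl⟩ _ ⟨X', hX', rfl⟩
  exact ⟨X + X', Dinf_add hX hX', map_add _ _ _⟩

theorem Qs_mul {K : ℕ} {x y : B2} (hx : x ∈ Qs K) (hy : y ∈ Qs K) : x * y ∈ Qs K := by
  refine map_mem_closure₂ (f := fun a b : B2 => a * b) (by exact continuous_mul) hx hy ?_
  rintro _ ⟨X, hX, rfl⟩ _ ⟨X', hX', rfl⟩
  exact ⟨X * X', Dinf_mul hX hX', pr_mul _ _ _⟩

theorem gq_dense : Dense (Set.range gq) := by
  have h1 : DenseRange (Prod.map ((↑) : ℚ → ℝ) ((↑) : ℚ → ℝ)) :=
    DenseRange.prodMap Rat.isDenseEmbedding_coe_real.dense Rat.isDenseEmbedding_coe_real.dense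
  have h2 : DenseRange (Complex.equivRealProdCLM.symm ∘
      (Prod.map ((↑) : ℚ → ℝ) ((↑) : ℚ → ℝ))) :=
    (Complex.equivRealProdCLM.symm.surjective.denseRange).comp h1
      Complex.equivRealProdCLM.symm.continuous
  have h3 : (Complex.equivRealProdCLM.symm ∘ (Prod.map ((↑) : ℚ → ℝ) ((↑) : ℚ → ℝ))) = gq := by
    ext q
    apply Complex.ext <;> simp [gq]
  rw [h3] at h2
  exact h2

theorem Qs_smul {K : ℕ} (c : ℂ) {x : B2} (hx : x ∈ Qs K) : c • x ∈ Qs K := by
  refine map_mem_closure₂ (f := fun (a : ℂ) (b : B2) => a • b) (by exact continuous_smul)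
    (gq_dense c) hx ?_
  rintro _ ⟨q, rfl⟩ _ ⟨X, hX, rfl⟩
  exact ⟨gq q • X, Dinf_gq hX q, map_smul _ _ _⟩

theorem Qs_sum {K : ℕ} {ι : Type*} (s : Finset ι) (f : ι → B2) (hf : ∀ i ∈ s, f i ∈ Qs K) :
    ∑ i ∈ s, f i ∈ Qs K := by
  classical
  induction s using Finset.induction_on with
  | empty => rw [Finset.sum_empty]; exact Qs_zero K
  | insert i s hi ih =>
    rw [Finset.sum_insert hi]
    exact Qs_add (hf i (Finset.mem_insert_self i s))
      (ih fun j hj => hf j (Finset.mem_insert_of_mem hj))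

theorem Qs_comm {K : ℕ} {x y : B2} (hx : x ∈ Qs K) (hy : y ∈ Qs K) : x * y = y * x := by
  have hcl : IsClosed {p : B2 × B2 | p.1 * p.2 = p.2 * p.1} :=
    isClosed_eq (by fun_prop) (by fun_prop)
  have h1 : (x, y) ∈ closure ((pr K '' Dinf K) ×ˢ (pr K '' Dinf K)) := by
    rw [closure_prod_eq]; exact ⟨hx, hy⟩
  refine (closure_minimal ?_ hcl) h1
  rintro ⟨_, _⟩ ⟨⟨X, hX, rfl⟩, ⟨X', hX', rfl⟩⟩
  show pr K X * pr K X' = pr K X' * pr K X
  rw [← pr_mul, ← pr_mul, Dinf_comm hX hX']

theorem Qs_one_mul {K : ℕ} {x : B2} (hx : x ∈ Qs K) : pr K 1 * x = x := by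
  have hcl : IsClosed {p : B2 | pr K 1 * p = p} := isClosed_eq (by fun_prop) (by fun_prop)
  refine (closure_minimal ?_ hcl) hx
  rintro _ ⟨X, hX, rfl⟩
  show pr K 1 * pr K X = pr K X
  rw [← pr_mul, one_mul]

theorem Qs_pr_rho {K : ℕ} {x : B2} (hx : x ∈ Qs K) : pr K (rho x) = x := by
  have hcl : IsClosed {p : B2 | pr K (rho p) = p} :=
    isClosed_eq ((pr_continuous K).comp rho.continuous) continuous_id
  refine (closure_minimal ?_ hcl) hx
  rintro _ ⟨X, hX, rfl⟩
  show pr K (rho (pr K X)) = pr K X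
  rw [rho_pr]

theorem Qs_sep (K : ℕ) : TopologicalSpace.IsSeparable (Qs K) :=
  ((Dinf_countable K).image _).isSeparable.closure

theorem Qs_approx {K : ℕ} {x : B2} (hx : x ∈ Qs K) {ε : ℝ} (hε : 0 < ε) :
    ∃ g ∈ Qs K, ‖x - g * g‖ ≤ ε ∧ ‖g‖ ^ 2 ≤ 4 * (‖x‖ + ε) := by
  obtain ⟨_, ⟨F, hF, rfl⟩, hd⟩ := Metric.mem_closure_iff.1 hx ε hε
  rw [dist_eq_norm] at hd
  obtain ⟨i, hi⟩ := Set.mem_iUnion.1 hF
  obtain ⟨n, hn⟩ := exists_Fsel (Y K) hi
  set t : ℝ := ‖pr K F‖ with ht
  have ht0 : 0 ≤ t := norm_nonneg _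
  refine ⟨((Real.sqrt t : ℝ) : ℂ) • pr K (Y K n), Qs_smul _ (mem_Qs (Dinf_Y K n)), ?_, ?_⟩
  · have h1 : (((Real.sqrt t : ℝ) : ℂ) • pr K (Y K n)) * (((Real.sqrt t : ℝ) : ℂ) • pr K (Y K n)) =
        pr K F := by
      rw [← map_smul, ← pr_mul]
      have h2 : ((Real.sqrt t : ℝ) : ℂ) • Y K n * ((Real.sqrt t : ℝ) : ℂ) • Y K n =
          ((t : ℝ) : ℂ) • (Y K n * Y K n) := by
        apply ContinuousLinearMap.ext
        intro f
        rw [mul_apply_eq_comp]
        show ((Real.sqrt t : ℝ) : ℂ) • Y K n (((Real.sqrt t : ℝ) : ℂ) • Y K n f) =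
          ((t : ℝ) : ℂ) • (Y K n (Y K n f))
        rw [map_smul, smul_smul, ← Complex.ofReal_mul, Real.mul_self_sqrt ht0]
      rw [h2, Y_sq, Gsel, hn, smul_smul]
      by_cases ht1 : t = 0
      · have h6 : ∀ p, pr K F p = 0 := by
          intro p
          have h7 := (pr K F).le_opNorm p
          rw [← ht, ht1, zero_mul] at h7
          exact norm_le_zero_iff.1 h7
        apply ContinuousLinearMap.ext
        intro p
        rw [map_smul]
        show (((t : ℝ) : ℂ) * (((t : ℝ)⁻¹ : ℝ) : ℂ)) • pr K F p = pr K F p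
        rw [h6, smul_zero]
      · rw [← Complex.ofReal_mul, mul_inv_cancel₀ ht1, Complex.ofReal_one, one_smul]
    rw [h1]; exact hd.le
  · rw [norm_smul, Complex.norm_real, Real.norm_of_nonneg (Real.sqrt_nonneg _), mul_pow,
      Real.sq_sqrt ht0]
    have h3 : t ≤ ‖x‖ + ε := by
      have h4 : pr K F = x - (x - pr K F) := by abel
      calc t = ‖x - (x - pr K F)‖ := by rw [ht, ← h4]
        _ ≤ ‖x‖ + ‖x - pr K F‖ := norm_sub_le _ _
        _ ≤ ‖x‖ + ε := by linarith
    have h5 : ‖pr K (Y K n)‖ ^ 2 ≤ 4 := by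
      have := pow_le_pow_left₀ (norm_nonneg _) (norm_pr_Y K n) 2
      linarith
    nlinarith [norm_nonneg x]

/-! ### The obstruction -/

/-- bounded sequences in `H` -/
abbrev HN := BoundedContinuousFunction ℕ H

/-- coordinatewise application of a bounded sequence of operators -/
noncomputable def LN (X : ℕ → B) (C : ℝ) (hX : ∀ n, ‖X n‖ ≤ C) : Module.End ℂ HN where
  toFun u := BoundedContinuousFunction.ofNormedAddCommGroupDiscrete
    (fun n => X n (u n)) (C * ‖u‖) (fun n =>
      ((X n).le_opNorm _).trans (mul_le_mul (hX n) (u.norm_coe_le_norm n) (norm_nonneg _)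
        ((norm_nonneg _).trans (hX n))))
  map_add' u v := by
    apply BoundedContinuousFunction.ext
    intro n
    exact map_add (X n) (u n) (v n)
  map_smul' c u := by
    apply BoundedContinuousFunction.ext
    intro n
    exact map_smul (X n) c (u n)

theorem LN_apply (X : ℕ → B) (C : ℝ) (hX : ∀ n, ‖X n‖ ≤ C) (u : HN) (n : ℕ) :
    LN X C hX u n = X n (u n) := rfl

theorem LN_comm {X X' : ℕ → B} {C C' : ℝ} {hX : ∀ n, ‖X n‖ ≤ C} {hX' : ∀ n, ‖X' n‖ ≤ C'}
    (h : ∀ n, X n * X' n = X' n * X n) : Commute (LN X C hX) (LN X' C' hX') := by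
  apply LinearMap.ext
  intro u
  apply BoundedContinuousFunction.ext
  intro n
  exact congrArg (fun g : B => g (u n)) (h n)

/-- the constant function one -/
noncomputable def xi : H := BoundedContinuousFunction.const Idx 1

theorem om_xi : om xi = 1 := rfl

theorem rho_mul_comm {K : ℕ} {x y : B2} (hx : x ∈ Qs K) (hy : y ∈ Qs K) :
    rho x * rho y = rho y * rho x := by
  have h1 : pr K (rho x * rho y) = pr K (rho y * rho x) := by
    rw [pr_mul, pr_mul, Qs_pr_rho hx, Qs_pr_rho hy, Qs_comm hx hy]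
  have := congrArg rho h1
  rwa [rho_pr, rho_pr] at this

theorem rho_mul {K : ℕ} {x y : B2} (hx : x ∈ Qs K) (hy : y ∈ Qs K) :
    rho (x * y) = rho x * rho y := by
  have h1 : pr K (rho x * rho y) = x * y := by
    rw [pr_mul, Qs_pr_rho hx, Qs_pr_rho hy]
  rw [← h1, rho_pr]

/-- the obstruction to common factorisation -/
theorem obstruct (m : ℕ) (ρ : ℝ) : ∃ K : ℕ, ¬ ∃ (a : Fin m → B2) (b : ℕ → Fin m → B2),
    (∀ j, a j ∈ Qs K ∧ ‖a j‖ ≤ ρ) ∧ (∀ k j, b k j ∈ Qs K ∧ ‖b k j‖ ≤ ρ) ∧
    ∀ k ≤ m, pr K (Z k) = ∑ j, a j * b k j := by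
  by_contra hcon
  push Not at hcon
  choose a b ha hb hab using hcon
  -- operators on the space of bounded sequences
  have hna : ∀ j K, ‖rho (a K j)‖ ≤ ρ := fun j K => (norm_rho _).trans (ha K j).2
  have hnb : ∀ k j K, ‖rho (b K k j)‖ ≤ ρ := fun k j K => (norm_rho _).trans (hb K k j).2
  let A : Fin m → Module.End ℂ HN := fun j => LN (fun K => rho (a K j)) ρ (hna j)
  let Bm : ℕ → Fin m → Module.End ℂ HN := fun k j => LN (fun K => rho (b K k j)) ρ (hnb k j)
  let ZZ : ℕ → Module.End ℂ HN := fun k => LN (fun _ => Z k) 1 (fun _ => norm_Z k)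
  let SS : ℕ → Module.End ℂ HN := fun k => LN (fun _ => Sh k) 1 (fun _ => norm_Sh k)
  have hZr : ∀ K k, rho (pr K (Z k)) = Z k := fun K k => rho_pr K _
  have hzz : ∀ i j, Commute (ZZ i) (ZZ j) := fun i j => LN_comm fun n => (Z_Z i j).eq
  have hS : ∀ k, SS k * ZZ k = 1 := fun k => by
    apply LinearMap.ext; intro u
    apply BoundedContinuousFunction.ext; intro n
    exact congrArg (fun g : B => g (u n)) (Sh_Z k)
  have hSz : ∀ k l, k ≠ l → SS k * ZZ l = ZZ l * SS k := fun k l hkl =>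
    (LN_comm fun n => Sh_Z_ne hkl).eq
  have haa : ∀ i j, Commute (A i) (A j) := fun i j =>
    LN_comm fun K => rho_mul_comm (ha K i).1 (ha K j).1
  have habc : ∀ i k j, Commute (A i) (Bm k j) := fun i k j =>
    LN_comm fun K => rho_mul_comm (ha K i).1 (hb K k j).1
  have haz : ∀ i j, Commute (A i) (ZZ j) := fun i j => LN_comm fun K => by
    have := rho_mul_comm (ha K i).1 (mem_Qs (Dinf_Z K j))
    rwa [hZr] at this
  have hbz : ∀ k i j, Commute (Bm k i) (ZZ j) := fun k i j => LN_comm fun K => by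
    have := rho_mul_comm (hb K k i).1 (mem_Qs (Dinf_Z K j))
    rwa [hZr] at this
  have hz : ∀ k ≤ m, ZZ k = ∑ j, A j * Bm k j := by
    intro k hk
    apply LinearMap.ext; intro u
    apply BoundedContinuousFunction.ext; intro K
    have h1 : Z k = ∑ j, rho (a K j) * rho (b K k j) := by
      rw [← hZr K k, hab K k hk, map_sum]
      exact Finset.sum_congr rfl fun j _ => rho_mul (ha K j).1 (hb K k j).1
    have h2 : Z k (u K) = (∑ j, rho (a K j) * rho (b K k j)) (u K) :=
      congrArg (fun g : B => g (u K)) h1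
    rw [LinearMap.sum_apply]
    rw [BoundedContinuousFunction.coe_sum, Finset.sum_apply]
    show Z k (u K) = _
    rw [h2, sum_apply]
    rfl
  obtain ⟨w, hw⟩ := koszul_main hzz hS hSz haa habc haz hbz hz
    (BoundedContinuousFunction.const ℕ xi)
  obtain ⟨K, hK⟩ := exists_nat_gt (∑ j, ρ * ‖w j‖)
  have h1 : xi = ∑ j, rho (a K j) (w j K) := by
    have h2 : (BoundedContinuousFunction.const ℕ xi) K = (∑ j, A j (w j)) K :=
      congrArg (fun g : HN => g K) hw
    rw [BoundedContinuousFunction.coe_sum, Finset.sum_apply] at h2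
    exact h2
  have h3 : (1 : ℂ) = ∑ j, om (rho (a K j) (w j K)) := by
    rw [← om_xi, h1, map_sum]
  have h4 : (K : ℝ) ≤ ∑ j, ρ * ‖w j‖ := by
    calc (K : ℝ) = K * ‖∑ j, om (rho (a K j) (w j K))‖ := by rw [← h3, norm_one, mul_one]
      _ ≤ K * ∑ j, ‖om (rho (a K j) (w j K))‖ :=
          mul_le_mul_of_nonneg_left (norm_sum_le _ _) (Nat.cast_nonneg K)
      _ = ∑ j, K * ‖om (rho (a K j) (w j K))‖ := by rw [Finset.mul_sum]
      _ ≤ ∑ j, ρ * ‖w j‖ := by
          refine Finset.sum_le_sum fun j _ => ?_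
          have h5 : ‖om (rho (a K j) (w j K))‖ ≤ ‖om.comp (rho (a K j))‖ * ‖w j K‖ :=
            ContinuousLinearMap.le_opNorm (om.comp (rho (a K j))) (w j K)
          have h6 : (K : ℝ) * ‖om.comp (rho (a K j))‖ ≤ ρ := by
            have h7 := om_le_norm_pr K (rho (a K j))
            rw [Qs_pr_rho (ha K j).1] at h7
            exact h7.trans (ha K j).2
          have hρ : 0 ≤ ρ := (norm_nonneg _).trans (ha K j).2
          calc (K : ℝ) * ‖om (rho (a K j) (w j K))‖
              ≤ K * (‖om.comp (rho (a K j))‖ * ‖w j K‖) :=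
                mul_le_mul_of_nonneg_left h5 (Nat.cast_nonneg K)
            _ = (K * ‖om.comp (rho (a K j))‖) * ‖w j K‖ := by ring
            _ ≤ ρ * ‖w j‖ := mul_le_mul h6 ((w j).norm_coe_le_norm K) (norm_nonneg _) hρ
  linarith

/-! ### Assembling the algebra -/


theorem package {E : Type} [NonUnitalNormedRing E] [NormedSpace ℂ E] [IsScalarTower ℂ E E]
    [SMulCommClass ℂ E E] [CompleteSpace E] (s : Set E) (h0 : (0 : E) ∈ s)
    (hadd : ∀ x ∈ s, ∀ y ∈ s, x + y ∈ s) (hmul : ∀ x ∈ s, ∀ y ∈ s, x * y ∈ s)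
    (hsmul : ∀ (c : ℂ), ∀ x ∈ s, c • x ∈ s) (hcomm : ∀ x ∈ s, ∀ y ∈ s, x * y = y * x)
    (hclosed : IsClosed s) (hsep : TopologicalSpace.IsSeparable s)
    (hfac : ∀ x ∈ s, ∃ a ∈ s, ∃ b ∈ s, ∃ c ∈ s, ∃ d ∈ s, x = a * b + c * d)
    (x : ℕ → E) (hx : ∀ n, x n ∈ s) (hx0 : Tendsto (fun k => ‖x k‖) atTop (𝓝 0))
    (hno : ¬ ∃ (m : ℕ) (a : Fin m → E) (b : Fin m → ℕ → E), (∀ j, a j ∈ s) ∧
      (∀ j k, b j k ∈ s) ∧ (∀ j, Tendsto (fun k => ‖b j k‖) atTop (𝓝 0)) ∧
      ∀ k, x k = ∑ j, a j * b j k) :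
    ∃ (A : Type) (_ : NonUnitalNormedCommRing A) (_ : NormedSpace ℂ A) (_ : IsScalarTower ℂ A A)
      (_ : SMulCommClass ℂ A A) (_ : CompleteSpace A) (_ : TopologicalSpace.SeparableSpace A),
      (∀ x : A, ∃ a b c d : A, x = a * b + c * d) ∧
      Submodule.span ℂ {x : A | ∃ b c : A, x = b * c} = ⊤ ∧
      ∃ x ∈ NullSeq A, x ∉ MulNullSeq A := by
  let S : NonUnitalSubalgebra ℂ E :=
    { carrier := s
      add_mem' := fun {x y} hx hy => hadd x hx y hy
      zero_mem' := h0
      mul_mem' := fun {x y} hx hy => hmul x hx y hy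
      smul_mem' := fun c x hx => hsmul c x hx }
  let inst1 : NonUnitalNormedCommRing S :=
    { (inferInstance : NonUnitalNormedRing S) with
      mul_comm := fun x y => Subtype.ext (hcomm x.1 x.2 y.1 y.2) }
  let inst2 : NormedSpace ℂ S := (inferInstance : NormedSpace ℂ S.toSubmodule)
  have hfac' : ∀ x : S, ∃ a b c d : S, x = a * b + c * d := by
    intro x
    obtain ⟨a, ha, b, hb, c, hc, d, hd, h⟩ := hfac x.1 x.2
    exact ⟨⟨a, ha⟩, ⟨b, hb⟩, ⟨c, hc⟩, ⟨d, hd⟩, Subtype.ext h⟩
  refine ⟨S, inst1, inst2, ⟨fun c x y => Subtype.ext (smul_mul_assoc c x.1 y.1)⟩,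
    ⟨fun c x y => Subtype.ext (mul_smul_comm c x.1 y.1).symm⟩,
    hclosed.completeSpace_coe, hsep.separableSpace, hfac', ?_, ?_⟩
  · rw [eq_top_iff]
    intro x _
    obtain ⟨a, b, c, d, h⟩ := hfac' x
    rw [h]
    exact Submodule.add_mem _ (Submodule.subset_span ⟨a, b, rfl⟩)
      (Submodule.subset_span ⟨c, d, rfl⟩)
  · refine ⟨fun n => (⟨x n, hx n⟩ : S), hx0, ?_⟩
    rintro ⟨m, a, b, hb, hab⟩
    refine hno ⟨m, fun j => (a j).1, fun j k => (b j k).1, fun j => (a j).2, fun j k => (b j k).2,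
      fun j => hb j, fun k => ?_⟩
    have h2 := congrArg (fun z : S => z.1) (hab k)
    simp only at h2
    rw [h2]
    exact map_sum (S.toSubmodule.subtype) _ _

section czero

variable {R : Type} [NormedRing R] [NormedAlgebra ℂ R]

/-- build an element of `C0` -/
noncomputable def mk0 (f : ℕ → R) (hf : Tendsto f atTop (𝓝 0)) : ZeroAtInftyContinuousMap ℕ R :=
  ⟨⟨f, continuous_of_discreteTopology⟩, by
    rw [Filter.cocompact_eq_cofinite, Nat.cofinite_eq_atTop]; exact hf⟩

theorem mk0_apply (f : ℕ → R) (hf : Tendsto f atTop (𝓝 0)) (n : ℕ) : mk0 f hf n = f n := rfl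

theorem C0_tendsto (F : ZeroAtInftyContinuousMap ℕ R) : Tendsto (fun n => F n) atTop (𝓝 0) := by
  have := F.zero_at_infty'
  rwa [Filter.cocompact_eq_cofinite, Nat.cofinite_eq_atTop] at this

theorem C0_norm_apply_le (F : ZeroAtInftyContinuousMap ℕ R) (n : ℕ) : ‖F n‖ ≤ ‖F‖ := by
  rw [← ZeroAtInftyContinuousMap.norm_toBCF_eq_norm]
  exact F.toBCF.norm_coe_le_norm n

theorem C0_norm_le (F : ZeroAtInftyContinuousMap ℕ R) {C : ℝ} (hC : 0 ≤ C) (h : ∀ n, ‖F n‖ ≤ C) :
    ‖F‖ ≤ C := by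
  rw [← ZeroAtInftyContinuousMap.norm_toBCF_eq_norm]
  exact (BoundedContinuousFunction.norm_le hC).2 h

theorem C0_continuous_eval (n : ℕ) : Continuous (fun F : ZeroAtInftyContinuousMap ℕ R => F n) := by
  refine Metric.continuous_iff.2 fun F ε hε => ⟨ε, hε, fun G hG => ?_⟩
  have h1 : dist G F = ‖G - F‖ := dist_eq_norm G F
  rw [h1] at hG
  rw [dist_eq_norm]
  exact lt_of_le_of_lt (C0_norm_apply_le (G - F) n) hG

theorem C0_sum_apply {m : ℕ} (F : Fin m → ZeroAtInftyContinuousMap ℕ R) (n : ℕ) :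
    (∑ j, F j) n = ∑ j, F j n := by
  let ev : ZeroAtInftyContinuousMap ℕ R →+ R :=
    { toFun := fun G => G n
      map_zero' := rfl
      map_add' := fun _ _ => rfl }
  exact map_sum ev F Finset.univ

/-- the function supported at one point -/
noncomputable def sgl (n : ℕ) (v : R) : ZeroAtInftyContinuousMap ℕ R :=
  mk0 (fun k => if k = n then v else 0) (by
    refine tendsto_const_nhds.congr' ?_
    filter_upwards [eventually_gt_atTop n] with k hk
    rw [if_neg (by omega)])

theorem sgl_apply (n : ℕ) (v : R) (k : ℕ) : sgl n v k = if k = n then v else 0 := rfl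

/-- truncation -/
noncomputable def trunc (N : ℕ) (f : ℕ → R) : ZeroAtInftyContinuousMap ℕ R :=
  mk0 (fun k => if k < N then f k else 0) (by
    refine tendsto_const_nhds.congr' ?_
    filter_upwards [eventually_ge_atTop N] with k hk
    rw [if_neg (by omega)])

theorem trunc_apply (N : ℕ) (f : ℕ → R) (k : ℕ) : trunc N f k = if k < N then f k else 0 := rfl

theorem trunc_continuous (N : ℕ) : Continuous (trunc N : (ℕ → R) → ZeroAtInftyContinuousMap ℕ R) := by
  rw [continuous_iff_continuousAt]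
  intro f
  rw [ContinuousAt, Metric.tendsto_nhds]
  intro ε hε
  have h1 : ∀ᶠ g in 𝓝 f, ∀ k ∈ Finset.range N, dist (g k) (f k) < ε / 2 := by
    rw [Filter.eventually_all_finset]
    intro k _
    have : Tendsto (fun g : ℕ → R => g k) (𝓝 f) (𝓝 (f k)) := (continuous_apply k).continuousAt
    exact this.eventually (Metric.ball_mem_nhds _ (by positivity))
  filter_upwards [h1] with g hg
  have h2 : dist (trunc N g) (trunc N f) = ‖trunc N g - trunc N f‖ := dist_eq_norm _ _
  rw [h2]
  refine lt_of_le_of_lt (C0_norm_le _ (by positivity : 0 ≤ ε / 2) fun k => ?_) (by linarith)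
  show ‖trunc N g k - trunc N f k‖ ≤ ε / 2
  rw [trunc_apply, trunc_apply]
  split_ifs with h
  · rw [← dist_eq_norm]; exact (hg k (Finset.mem_range.2 h)).le
  · rw [sub_zero, norm_zero]; positivity

variable {Q : ℕ → Set R}

/-- the underlying set of the final algebra -/
def AA (Q : ℕ → Set R) : Set (ZeroAtInftyContinuousMap ℕ R) := {F | ∀ n, F n ∈ Q n}

theorem AA_closed (hQ : ∀ n, IsClosed (Q n)) : IsClosed (AA Q) := by
  have : AA Q = ⋂ n, (fun F : ZeroAtInftyContinuousMap ℕ R => F n) ⁻¹' (Q n) := by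
    ext F; simp [AA]
  rw [this]
  exact isClosed_iInter fun n => (hQ n).preimage (C0_continuous_eval n)

theorem AA_sep (hQ : ∀ n, TopologicalSpace.IsSeparable (Q n)) :
    TopologicalSpace.IsSeparable (AA Q) := by
  let P : Set (ℕ → R) := {f | ∀ n, f n ∈ Q n}
  have hP : TopologicalSpace.IsSeparable P :=
    TopologicalSpace.isSeparable_pi fun n => hQ n
  have h1 : TopologicalSpace.IsSeparable (⋃ N, (trunc N : (ℕ → R) → _) '' P) :=
    TopologicalSpace.IsSeparable.iUnion fun N => hP.image (trunc_continuous N)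
  refine h1.closure.mono fun F hF => ?_
  rw [Metric.mem_closure_iff]
  intro ε hε
  obtain ⟨N, hN⟩ := Metric.tendsto_atTop.1 (C0_tendsto F) (ε / 2) (by positivity)
  refine ⟨trunc N (fun n => F n), Set.mem_iUnion.2 ⟨N, _, fun n => hF n, rfl⟩, ?_⟩
  have h2 : dist F (trunc N fun n => F n) = ‖F - trunc N fun n => F n‖ := dist_eq_norm _ _
  rw [h2]
  refine lt_of_le_of_lt (C0_norm_le _ (by positivity : 0 ≤ ε / 2) fun k => ?_) (by linarith)
  show ‖F k - trunc N (fun n => F n) k‖ ≤ ε / 2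
  rw [trunc_apply]
  split_ifs with h
  · rw [sub_self, norm_zero]; positivity
  · rw [sub_zero]
    have := hN k (by omega)
    rw [dist_zero_right] at this
    exact this.le

theorem AA_fac (hQadd : ∀ n, ∀ x ∈ Q n, ∀ y ∈ Q n, x + y ∈ Q n)
    (hQmul : ∀ n, ∀ x ∈ Q n, ∀ y ∈ Q n, x * y ∈ Q n)
    (hQsmul : ∀ n, ∀ (c : ℂ), ∀ x ∈ Q n, c • x ∈ Q n)
    (e : ℕ → R) (he : ∀ n, e n ∈ Q n) (heu : ∀ n, ∀ x ∈ Q n, e n * x = x)
    (happ : ∀ n, ∀ x ∈ Q n, ∀ ε : ℝ, 0 < ε → ∃ g ∈ Q n, ‖x - g * g‖ ≤ ε ∧ ‖g‖ ^ 2 ≤ 4 * (‖x‖ + ε)) :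
    ∀ x ∈ AA Q, ∃ a ∈ AA Q, ∃ b ∈ AA Q, ∃ c ∈ AA Q, ∃ d ∈ AA Q, x = a * b + c * d := by
  intro F hF
  let κ : ℕ → ℝ := fun n => (((n : ℝ) + 1) * (1 + ‖e n‖))⁻¹
  have hκ : ∀ n, 0 < κ n := fun n => by positivity
  let δ : ℕ → ℝ := fun n => κ n / ((n : ℝ) + 1)
  have hδ : ∀ n, 0 < δ n := fun n => div_pos (hκ n) (by positivity)
  have hlim : Tendsto (fun n : ℕ => 1 / ((n : ℝ) + 1)) atTop (𝓝 0) :=
    tendsto_one_div_add_atTop_nhds_zero_nat
  have hκ1 : ∀ n, κ n ≤ 1 / ((n : ℝ) + 1) := fun n => by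
    rw [one_div]
    refine inv_anti₀ (by positivity) ?_
    exact le_mul_of_one_le_right (by positivity) (by linarith [norm_nonneg (e n)])
  have hδ1 : ∀ n, δ n ≤ 1 / ((n : ℝ) + 1) := fun n =>
    (div_le_self (hκ n).le (by linarith [(Nat.cast_nonneg n : (0:ℝ) ≤ n)])).trans (hκ1 n)
  choose g hg1 hg2 hg3 using fun n => happ n (F n) (hF n) (δ n) (hδ n)
  have hFn : Tendsto (fun n => ‖F n‖) atTop (𝓝 0) := by
    have := (C0_tendsto F).norm; simpa using this
  have hδ0 : Tendsto δ atTop (𝓝 0) :=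
    squeeze_zero (fun n => (hδ n).le) hδ1 hlim
  have hg0 : Tendsto g atTop (𝓝 0) := by
    rw [tendsto_zero_iff_norm_tendsto_zero]
    have h1 : Tendsto (fun n => ‖g n‖ ^ 2) atTop (𝓝 0) := by
      refine squeeze_zero (fun n => by positivity) hg3 ?_
      have := (hFn.add hδ0).const_mul 4
      simpa using this
    have h2 := h1.sqrt
    simpa [Real.sqrt_sq] using h2
  have he0 : Tendsto (fun n => ((κ n : ℝ) : ℂ) • e n) atTop (𝓝 0) := by
    rw [tendsto_zero_iff_norm_tendsto_zero]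
    refine squeeze_zero (fun n => norm_nonneg _) (fun n => ?_) hlim
    rw [norm_smul, Complex.norm_real, Real.norm_of_nonneg (hκ n).le]
    show (((n : ℝ) + 1) * (1 + ‖e n‖))⁻¹ * ‖e n‖ ≤ 1 / ((n : ℝ) + 1)
    have h1 : 0 < 1 + ‖e n‖ := by positivity
    rw [mul_inv, mul_assoc, one_div]
    refine mul_le_of_le_one_right (by positivity) ?_
    rw [inv_mul_le_iff₀ h1]
    linarith
  have hr0 : Tendsto (fun n => (((κ n)⁻¹ : ℝ) : ℂ) • (F n - g n * g n)) atTop (𝓝 0) := by
    rw [tendsto_zero_iff_norm_tendsto_zero]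
    refine squeeze_zero (fun n => norm_nonneg _) (fun n => ?_) hlim
    rw [norm_smul, Complex.norm_real, Real.norm_of_nonneg (inv_nonneg.2 (hκ n).le)]
    calc (κ n)⁻¹ * ‖F n - g n * g n‖ ≤ (κ n)⁻¹ * δ n :=
          mul_le_mul_of_nonneg_left (hg2 n) (inv_nonneg.2 (hκ n).le)
      _ = 1 / ((n : ℝ) + 1) := by
          show (κ n)⁻¹ * (κ n / ((n : ℝ) + 1)) = _
          have := (hκ n).ne'
          field_simp
  have hmem : ∀ n, F n - g n * g n ∈ Q n := fun n => by
    have h1 := hQadd n _ (hF n) _ (hQsmul n (-1 : ℂ) _ (hQmul n _ (hg1 n) _ (hg1 n)))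
    have h2 : F n - g n * g n = F n + (-1 : ℂ) • (g n * g n) := by
      rw [neg_one_smul, sub_eq_add_neg]
    rw [h2]; exact h1
  refine ⟨mk0 g hg0, fun n => hg1 n, mk0 g hg0, fun n => hg1 n, mk0 _ he0,
    fun n => hQsmul n _ _ (he n), mk0 _ hr0, fun n => hQsmul n _ _ (hmem n), ?_⟩
  apply ZeroAtInftyContinuousMap.ext
  intro n
  show F n = g n * g n + (((κ n : ℝ) : ℂ) • e n) *
    ((((κ n)⁻¹ : ℝ) : ℂ) • (F n - g n * g n))
  rw [smul_mul_smul_comm, ← Complex.ofReal_mul, mul_inv_cancel₀ (hκ n).ne',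
      Complex.ofReal_one, one_smul, heu n _ (hmem n)]
  abel

theorem assembly [CompleteSpace R] (hQ0 : ∀ n, (0 : R) ∈ Q n)
    (hQadd : ∀ n, ∀ x ∈ Q n, ∀ y ∈ Q n, x + y ∈ Q n)
    (hQmul : ∀ n, ∀ x ∈ Q n, ∀ y ∈ Q n, x * y ∈ Q n)
    (hQsmul : ∀ n, ∀ (c : ℂ), ∀ x ∈ Q n, c • x ∈ Q n)
    (hQcomm : ∀ n, ∀ x ∈ Q n, ∀ y ∈ Q n, x * y = y * x)
    (hQclosed : ∀ n, IsClosed (Q n)) (hQsep : ∀ n, TopologicalSpace.IsSeparable (Q n))
    (e : ℕ → R) (he : ∀ n, e n ∈ Q n) (heu : ∀ n, ∀ x ∈ Q n, e n * x = x)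
    (happ : ∀ n, ∀ x ∈ Q n, ∀ ε : ℝ, 0 < ε → ∃ g ∈ Q n, ‖x - g * g‖ ≤ ε ∧ ‖g‖ ^ 2 ≤ 4 * (‖x‖ + ε))
    (z : ℕ → ℕ → R) (hz : ∀ n k, z n k ∈ Q n) (hz1 : ∀ n k, ‖z n k‖ ≤ 1)
    (hobs : ∀ n : ℕ, ¬ ∃ (a : Fin n → R) (b : ℕ → Fin n → R),
      (∀ j, a j ∈ Q n ∧ ‖a j‖ ≤ ((n : ℝ) + 1) ^ 3) ∧
      (∀ k j, b k j ∈ Q n ∧ ‖b k j‖ ≤ ((n : ℝ) + 1) ^ 3) ∧
      ∀ k ≤ n, z n k = ∑ j, a j * b k j) :
    ∃ (A : Type) (_ : NonUnitalNormedCommRing A) (_ : NormedSpace ℂ A) (_ : IsScalarTower ℂ A A)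
      (_ : SMulCommClass ℂ A A) (_ : CompleteSpace A) (_ : TopologicalSpace.SeparableSpace A),
      (∀ x : A, ∃ a b c d : A, x = a * b + c * d) ∧
      Submodule.span ℂ {x : A | ∃ b c : A, x = b * c} = ⊤ ∧
      ∃ x ∈ NullSeq A, x ∉ MulNullSeq A := by
  let x : ℕ → ZeroAtInftyContinuousMap ℕ R := fun p =>
    sgl (Nat.unpair p).1 (((1 / ((p : ℝ) + 1) : ℝ) : ℂ) • z (Nat.unpair p).1 (Nat.unpair p).2)
  have hxn : ∀ p, ‖x p‖ ≤ 1 / ((p : ℝ) + 1) := by
    intro p
    refine C0_norm_le _ (by positivity) fun k => ?_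
    show ‖sgl _ _ k‖ ≤ _
    rw [sgl_apply]
    split_ifs
    · rw [norm_smul, Complex.norm_real, Real.norm_of_nonneg (by positivity)]
      exact mul_le_of_le_one_right (by positivity) (hz1 _ _)
    · rw [norm_zero]; positivity
  refine package (AA Q) (fun n => hQ0 n) (fun x hx y hy n => hQadd n _ (hx n) _ (hy n))
    (fun x hx y hy n => hQmul n _ (hx n) _ (hy n)) (fun c x hx n => hQsmul n c _ (hx n))
    (fun x hx y hy => ?_) (AA_closed hQclosed) (AA_sep hQsep)
    (AA_fac hQadd hQmul hQsmul e he heu happ) x (fun p k => ?_) ?_ ?_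
  · apply ZeroAtInftyContinuousMap.ext
    intro n
    exact hQcomm n _ (hx n) _ (hy n)
  · show sgl _ _ k ∈ Q k
    rw [sgl_apply]
    split_ifs with h
    · subst h; exact hQsmul _ _ _ (hz _ _)
    · exact hQ0 _
  · exact squeeze_zero (fun n => norm_nonneg _) hxn tendsto_one_div_add_atTop_nhds_zero_nat
  · rintro ⟨m, a, b, ha, hb, hb0, hab⟩
    -- bounds
    have hbd : ∃ C : ℝ, ∀ j p, ‖b j p‖ ≤ C := by
      have h1 : ∀ j, ∃ C : ℝ, ∀ p, ‖b j p‖ ≤ C := fun j => by
        obtain ⟨C, hC⟩ := (hb0 j).bddAbove_range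
        exact ⟨C, fun p => hC ⟨p, rfl⟩⟩
      choose C hC using h1
      refine ⟨∑ j, |C j|, fun j p => ?_⟩
      calc ‖b j p‖ ≤ C j := hC j p
        _ ≤ |C j| := le_abs_self _
        _ ≤ ∑ j, |C j| := Finset.single_le_sum (f := fun j => |C j|)
            (fun i _ => abs_nonneg _) (Finset.mem_univ j)
    obtain ⟨C, hC⟩ := hbd
    have h2 : ∀ᶠ n : ℕ in atTop, ∀ j, ‖a j n‖ ≤ 1 := by
      rw [Filter.eventually_all]
      intro j
      have h3 : Tendsto (fun n => ‖a j n‖) atTop (𝓝 0) := by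
        have := (C0_tendsto (a j)).norm; simpa using this
      exact (h3.eventually (gt_mem_nhds zero_lt_one)).mono fun n hn => le_of_lt hn
    obtain ⟨n, hn1, hn2, hn3⟩ := (h2.and ((eventually_ge_atTop m).and
      (tendsto_natCast_atTop_atTop.eventually_ge_atTop C))).exists
    have hn0 : (0 : ℝ) ≤ n := Nat.cast_nonneg n
    refine hobs n ⟨fun j => if h : j.1 < m then a ⟨j.1, h⟩ n else 0,
      fun k j => if h : j.1 < m ∧ k ≤ n then
        ((((Nat.pair n k : ℕ) : ℝ) + 1 : ℝ) : ℂ) • b ⟨j.1, h.1⟩ (Nat.pair n k) n else 0, ?_, ?_, ?_⟩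
    · intro j
      show (if h : j.1 < m then a ⟨j.1, h⟩ n else 0) ∈ Q n ∧
        ‖(if h : j.1 < m then a ⟨j.1, h⟩ n else 0)‖ ≤ _
      split_ifs with h
      · refine ⟨ha _ n, (hn1 _).trans ?_⟩
        exact one_le_pow₀ (by linarith)
      · refine ⟨hQ0 n, ?_⟩
        rw [norm_zero]; positivity
    · intro k j
      show (if h : j.1 < m ∧ k ≤ n then
        ((((Nat.pair n k : ℕ) : ℝ) + 1 : ℝ) : ℂ) • b ⟨j.1, h.1⟩ (Nat.pair n k) n else 0) ∈ Q n ∧
        ‖(if h : j.1 < m ∧ k ≤ n then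
        ((((Nat.pair n k : ℕ) : ℝ) + 1 : ℝ) : ℂ) • b ⟨j.1, h.1⟩ (Nat.pair n k) n else 0)‖ ≤ _
      split_ifs with h
      · refine ⟨hQsmul n _ _ (hb _ _ n), ?_⟩
        rw [norm_smul, Complex.norm_real, Real.norm_of_nonneg (by positivity)]
        have h4 : ‖b ⟨j.1, h.1⟩ (Nat.pair n k) n‖ ≤ (n : ℝ) + 1 :=
          ((C0_norm_apply_le _ n).trans (hC _ _)).trans (by linarith)
        have h5 : ((Nat.pair n k : ℕ) : ℝ) + 1 ≤ ((n : ℝ) + 1) ^ 2 := by
          have h6 := Nat.pair_lt_max_add_one_sq n k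
          rw [max_eq_left h.2] at h6
          have h7 : Nat.pair n k + 1 ≤ (n + 1) ^ 2 := h6
          exact_mod_cast h7
        calc (((Nat.pair n k : ℕ) : ℝ) + 1) * ‖b ⟨j.1, h.1⟩ (Nat.pair n k) n‖
            ≤ ((n : ℝ) + 1) ^ 2 * ((n : ℝ) + 1) :=
              mul_le_mul h5 h4 (norm_nonneg _) (by positivity)
          _ = ((n : ℝ) + 1) ^ 3 := by ring
      · refine ⟨hQ0 n, ?_⟩
        rw [norm_zero]; positivity
    · intro k hk
      have h8 : x (Nat.pair n k) n = ∑ j, a j n * b j (Nat.pair n k) n := by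
        rw [hab (Nat.pair n k), C0_sum_apply]
        rfl
      have h9 : x (Nat.pair n k) n = ((1 / (((Nat.pair n k : ℕ) : ℝ) + 1) : ℝ) : ℂ) • z n k := by
        show sgl _ _ n = _
        rw [sgl_apply, Nat.unpair_pair, if_pos rfl]
      rw [h9] at h8
      have h10 : z n k = ∑ j, a j n * (((((Nat.pair n k : ℕ) : ℝ) + 1 : ℝ) : ℂ) •
          b j (Nat.pair n k) n) := by
        have h11 : ((((Nat.pair n k : ℕ) : ℝ) + 1 : ℝ) : ℂ) •
            (((1 / (((Nat.pair n k : ℕ) : ℝ) + 1) : ℝ) : ℂ) • z n k) = z n k := by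
          rw [smul_smul, ← Complex.ofReal_mul, mul_one_div_cancel (by positivity),
            Complex.ofReal_one, one_smul]
        rw [← h11, h8, Finset.smul_sum]
        refine Finset.sum_congr rfl fun j _ => ?_
        rw [mul_smul_comm]
      let f : ℕ → R := fun i => if h : i < m then a ⟨i, h⟩ n *
        (((((Nat.pair n k : ℕ) : ℝ) + 1 : ℝ) : ℂ) • b ⟨i, h⟩ (Nat.pair n k) n) else 0
      have h12 : z n k = ∑ i ∈ Finset.range m, f i := by
        rw [h10, ← Fin.sum_univ_eq_sum_range]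
        refine Finset.sum_congr rfl fun j _ => ?_
        show _ = if h : j.1 < m then _ else _
        rw [dif_pos j.2]
      have h13 : ∑ i ∈ Finset.range m, f i = ∑ i ∈ Finset.range n, f i := by
        refine Finset.sum_subset (Finset.range_subset_range.2 hn2) fun i _ hi => ?_
        show (if h : i < m then _ else _) = _
        rw [dif_neg (by simpa using hi)]
      rw [h12, h13, ← Fin.sum_univ_eq_sum_range]
      refine Finset.sum_congr rfl fun j _ => ?_
      show (if h : j.1 < m then a ⟨j.1, h⟩ n *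
        (((((Nat.pair n k : ℕ) : ℝ) + 1 : ℝ) : ℂ) • b ⟨j.1, h⟩ (Nat.pair n k) n) else 0) = _
      by_cases h : j.1 < m
      · rw [dif_pos h]
        show _ = (if h : j.1 < m then a ⟨j.1, h⟩ n else 0) * (if h : j.1 < m ∧ k ≤ n then
          ((((Nat.pair n k : ℕ) : ℝ) + 1 : ℝ) : ℂ) • b ⟨j.1, h.1⟩ (Nat.pair n k) n else 0)
        rw [dif_pos h, dif_pos ⟨h, hk⟩]
      · rw [dif_neg h]
        show _ = (if h : j.1 < m then a ⟨j.1, h⟩ n else 0) * _
        rw [dif_neg h, zero_mul]

end czero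

/-! ### The theorem -/

/-- the parameters -/
noncomputable def Kn (n : ℕ) : ℕ := Classical.choose (obstruct n (((n : ℝ) + 1) ^ 3))

theorem Kn_spec (n : ℕ) : ¬ ∃ (a : Fin n → B2) (b : ℕ → Fin n → B2),
    (∀ j, a j ∈ Qs (Kn n) ∧ ‖a j‖ ≤ ((n : ℝ) + 1) ^ 3) ∧
    (∀ k j, b k j ∈ Qs (Kn n) ∧ ‖b k j‖ ≤ ((n : ℝ) + 1) ^ 3) ∧
    ∀ k ≤ n, pr (Kn n) (Z k) = ∑ j, a j * b k j :=
  Classical.choose_spec (obstruct n (((n : ℝ) + 1) ^ 3))

/-- There is a commutative separable (complex, complete) Banach algebra `A` in which every element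
is a sum of two products, so that `A² = A`, but in which some null sequence does not belong to `A · c₀(A)`. -/
theorem result : ∃ (A : Type) (_ : NonUnitalNormedCommRing A) (_ : NormedSpace ℂ A)
      (_ : IsScalarTower ℂ A A) (_ : SMulCommClass ℂ A A) (_ : CompleteSpace A)
      (_ : TopologicalSpace.SeparableSpace A),
      (∀ x : A, ∃ a b c d : A, x = a * b + c * d) ∧
      Submodule.span ℂ {x : A | ∃ b c : A, x = b * c} = ⊤ ∧
      ∃ x ∈ NullSeq A, x ∉ MulNullSeq A :=
  assembly (R := B2) (Q := fun n => Qs (Kn n)) (fun n => Qs_zero _)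
    (fun n x hx y hy => Qs_add hx hy) (fun n x hx y hy => Qs_mul hx hy)
    (fun n c x hx => Qs_smul c hx) (fun n x hx y hy => Qs_comm hx hy) (fun n => Qs_closed _)
    (fun n => Qs_sep _) (fun n => pr (Kn n) 1) (fun n => mem_Qs (Dinf_one _))
    (fun n x hx => Qs_one_mul hx) (fun n x hx ε hε => Qs_approx hx hε)
    (fun n k => pr (Kn n) (Z k)) (fun n k => mem_Qs (Dinf_Z _ k)) (fun n k => norm_pr_Z _ k)
    (fun n => Kn_spec n)

end Pool.Agent.Results.MP_bc5e3f_an.NullSequencesFail
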