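import Mathlib

/-!
# Null sequences in the algebras `ℓ¹(S)`, `S` a commutative semigroup

For every commutative semigroup `S` the Banach algebra `A = ℓ¹(S)` (with convolution) satisfies
`A = A²` if and only if it satisfies `c₀(A) = A·c₀(A)`, and both hold if and only if
`S = S + S` and there is a bound on the cardinality of finite sets of pairwise coprime elements
of `S` (two elements are coprime if no element of `S` divides both).

Sketch of the construction.  If the combinatorial condition holds, every finite subset of `S` is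
covered by at most `M` principal ideals (take a cover with the least number of generators).
Given a null sequence, choose finite sets `F n` that capture all but a tiny part of all its
members, and families `u n` of `2 M` elements such that each element of `F n` and each element of
the family `u (n - 1)` is a multiple of a sum of two members of `u n`.  The generators of the
factorization are `∑ β k • δ (u k i)`, the sum over even, respectively odd, `k`, with rapidly
decreasing `β`.  An element `s` of level `n` is `u (n + 1) j + q` with `q` of level at most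
`n + 1`, and with the weights `β (n + 1) ^ (-2)` the error made by replacing `δ (u (n + 1) j)` by
the generator has norm at most `1/2`, so that a Neumann series gives an exact factorization.
-/

namespace Pool.Agent.Results.MP_bc5e3f_an.SemigroupAlgebras

open Filter Topology

noncomputable section

/-- The Banach space `ℓ¹(S)`. -/
abbrev L1 (S : Type*) := lp (fun _ : S => ℂ) 1

section lift

variable {ι : Type*} {Y : Type*} [NormedAddCommGroup Y] [NormedSpace ℂ Y] [CompleteSpace Y]

lemma hasSum_norm1 (f : L1 ι) : HasSum (fun i => ‖f i‖) ‖f‖ := by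
  have := lp.hasSum_norm (p := 1) (by simp) f
  simpa using this

lemma summable_smul (v : ι → Y) (C : ℝ) (hv : ∀ i, ‖v i‖ ≤ C) (f : L1 ι) :
    Summable (fun i => f i • v i) := by
  refine Summable.of_norm_bounded (g := fun i => ‖f i‖ * C) ((hasSum_norm1 f).summable.mul_right C) ?_
  intro i
  rw [norm_smul]
  exact mul_le_mul_of_nonneg_left (hv i) (norm_nonneg _)

omit [CompleteSpace Y] in
lemma norm_tsum_smul_le (v : ι → Y) (C : ℝ) (hv : ∀ i, ‖v i‖ ≤ C) (f : L1 ι) :
    ‖∑' i, f i • v i‖ ≤ C * ‖f‖ := by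
  have h1 : HasSum (fun i => ‖f i‖ * C) (‖f‖ * C) := (hasSum_norm1 f).mul_right C
  rw [mul_comm]
  refine tsum_of_norm_bounded h1 ?_
  intro i
  rw [norm_smul]
  exact mul_le_mul_of_nonneg_left (hv i) (norm_nonneg _)

/-- The bounded linear map `ℓ¹(ι) → Y` with prescribed bounded values at the basis vectors. -/
def lift (v : ι → Y) (C : ℝ) (hv : ∀ i, ‖v i‖ ≤ C) : L1 ι →L[ℂ] Y :=
  LinearMap.mkContinuous
    { toFun := fun f => ∑' i, f i • v i
      map_add' := by
        intro f g
        rw [← Summable.tsum_add (summable_smul v C hv f) (summable_smul v C hv g)]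
        refine tsum_congr fun i => ?_
        simp [add_smul]
      map_smul' := by
        intro c f
        simp only [RingHom.id_apply]
        rw [← (summable_smul v C hv f).tsum_const_smul c]
        refine tsum_congr fun i => ?_
        simp [smul_smul] } C (norm_tsum_smul_le v C hv)

lemma lift_apply (v : ι → Y) (C : ℝ) (hv : ∀ i, ‖v i‖ ≤ C) (f : L1 ι) :
    lift v C hv f = ∑' i, f i • v i := rfl

/-- basis vector -/
def dl [DecidableEq ι] (i : ι) : L1 ι := lp.single 1 i (1 : ℂ)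

lemma norm_dl [DecidableEq ι] (i : ι) : ‖dl i‖ = 1 := by
  rw [dl, lp.norm_single (by simp)]; simp

lemma dl_apply [DecidableEq ι] (i j : ι) : (dl i : L1 ι) j = if j = i then 1 else 0 := by
  rw [dl, lp.single_apply, Pi.single_apply]

lemma lift_dl [DecidableEq ι] (v : ι → Y) (C : ℝ) (hv : ∀ i, ‖v i‖ ≤ C) (i : ι) :
    lift v C hv (dl i) = v i := by
  rw [lift_apply, tsum_eq_single i]
  · simp [dl_apply]
  · intro j hj
    simp [dl_apply, hj]

lemma norm_lift_le (v : ι → Y) (C : ℝ) (hC : 0 ≤ C) (hv : ∀ i, ‖v i‖ ≤ C) :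
    ‖lift v C hv‖ ≤ C := LinearMap.mkContinuous_norm_le _ hC _

lemma hasSum_dl [DecidableEq ι] (f : L1 ι) : HasSum (fun i => f i • (dl i : L1 ι)) f := by
  have := lp.hasSum_single (p := 1) (by simp) f
  refine this.congr_fun ?_ |> fun h => h
  intro i
  simp [dl, ← lp.single_smul]

omit [CompleteSpace Y] in
lemma ext_dl [DecidableEq ι] (F G : L1 ι →L[ℂ] Y) (h : ∀ i, F (dl i) = G (dl i)) : F = G := by
  ext f
  have h1 := (hasSum_dl f).mapL F
  have h2 := (hasSum_dl f).mapL G
  refine h1.unique ?_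
  convert h2 using 2 with i
  simp [h i]

end lift

section conv

variable {S : Type*} [AddCommSemigroup S]

/-- Convolution of two functions on `S`. -/
def conv (f g : S → ℂ) (s : S) : ℂ :=
  ∑' p : {p : S × S // p.1 + p.2 = s}, f p.1.1 * g p.1.2

variable [DecidableEq S]

/-- Evaluation at `s` as a continuous linear functional. -/
def ev (s : S) : L1 S →L[ℂ] ℂ :=
  lift (fun i => if i = s then (1 : ℂ) else 0) 1 (by intro i; split_ifs <;> simp)

omit [AddCommSemigroup S] in
lemma ev_apply (s : S) (f : L1 S) : ev s f = f s := by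
  rw [ev, lift_apply, tsum_eq_single s]
  · simp
  · intro j hj
    simp [hj]

/-- Translation by `q`. -/
def tr (q : S) : L1 S →L[ℂ] L1 S :=
  lift (fun p => dl (p + q)) 1 (fun _ => (norm_dl _).le)

lemma norm_tr_le (q : S) : ‖tr q‖ ≤ 1 := norm_lift_le _ _ zero_le_one _

lemma norm_tr_apply_le (q : S) (a : L1 S) : ‖tr q a‖ ≤ ‖a‖ := by
  have := (tr q).le_of_opNorm_le (norm_tr_le q) a
  simpa using this

/-- Convolution by `a` as an operator. -/
def mulL (a : L1 S) : L1 S →L[ℂ] L1 S :=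
  lift (fun q => tr q a) ‖a‖ (fun q => norm_tr_apply_le q a)

lemma tr_dl (p q : S) : tr q (dl p) = dl (p + q) := lift_dl _ _ _ _

lemma mulL_dl (a : L1 S) (q : S) : mulL a (dl q) = tr q a := lift_dl _ _ _ _

lemma tr_apply (q : S) (a : L1 S) (s : S) :
    tr q a s = ∑' p, if p + q = s then a p else 0 := by
  rw [← ev_apply, tr, lift_apply,
    (ev s).map_tsum (summable_smul _ 1 (fun _ => (norm_dl _).le) a)]
  refine tsum_congr fun p => ?_
  simp only [map_smul, ev_apply, dl_apply, smul_eq_mul]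
  by_cases h : p + q = s
  · simp [h]
  · rw [if_neg h, if_neg (fun h' => h h'.symm)]; simp

lemma mulL_apply (a b : L1 S) (s : S) : mulL a b s = conv a b s := by
  have hsum : Summable (fun p : S × S => a p.1 * b p.2) :=
    summable_mul_of_summable_norm (hasSum_norm1 a).summable (hasSum_norm1 b).summable
  have hind : Summable (Set.indicator {p : S × S | p.1 + p.2 = s} (fun p => a p.1 * b p.2)) :=
    hsum.indicator _
  have h1 : conv a b s = ∑' p : S × S,
      Set.indicator {p : S × S | p.1 + p.2 = s} (fun p => a p.1 * b p.2) p := by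
    unfold conv
    exact tsum_subtype {p : S × S | p.1 + p.2 = s} (fun p => a p.1 * b p.2)
  have hind' : Summable (Function.uncurry fun (p q : S) =>
      Set.indicator {p : S × S | p.1 + p.2 = s} (fun p => a p.1 * b p.2) (p, q)) := by
    convert hind using 1
    ext ⟨p, q⟩
    rfl
  rw [h1, hind.tsum_prod, ← hind'.tsum_comm, ← ev_apply, mulL, lift_apply,
    (ev s).map_tsum (summable_smul _ ‖a‖ (fun q => norm_tr_apply_le q a) b)]
  refine tsum_congr fun q => ?_
  simp only [map_smul, ev_apply, smul_eq_mul, tr_apply]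
  rw [← tsum_mul_left]
  refine tsum_congr fun p => ?_
  by_cases h : p + q = s
  · simp [h, mul_comm]
  · simp [h]

end conv

section scheme

variable {S : Type*} [AddCommSemigroup S]

/-- `u` divides `s`: `s = u` or `s = u + q` for some `q`. -/
def Divides (u s : S) : Prop := s = u ∨ ∃ q, s = u + q

lemma Divides.refl (u : S) : Divides u u := Or.inl rfl

lemma Divides.trans {u v s : S} (h1 : Divides u v) (h2 : Divides v s) : Divides u s := by
  rcases h1 with rfl | ⟨q, rfl⟩
  · exact h2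
  · rcases h2 with rfl | ⟨r, rfl⟩
    · exact Or.inr ⟨q, rfl⟩
    · exact Or.inr ⟨q + r, add_assoc _ _ _⟩

lemma Divides.add_right {u s : S} (h : Divides u s) (t : S) : Divides u (s + t) := by
  rcases h with rfl | ⟨q, rfl⟩
  · exact Or.inr ⟨t, rfl⟩
  · exact Or.inr ⟨q + t, add_assoc _ _ _⟩

lemma Divides.add_left {u s : S} (h : Divides u s) (t : S) : Divides u (t + s) := by
  rw [add_comm]; exact h.add_right t

variable {ι : Type*}

/-- The ideal generated by the `n`-th family. -/
def InL (u : ℕ → ι → S) (n : ℕ) (s : S) : Prop := ∃ i, Divides (u n i) s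

/-- The numbers `β_n`. -/
def bb (n : ℕ) : ℂ := (1 / 2) ^ (3 ^ n)

lemma bb_ne (n : ℕ) : bb n ≠ 0 := by
  exact pow_ne_zero _ (by norm_num)

lemma norm_bb (n : ℕ) : ‖bb n‖ = (1 / 2) ^ (3 ^ n) := by
  simp [bb, norm_pow]

lemma norm_bb_le (n : ℕ) : ‖bb n‖ ≤ 1 := by
  rw [norm_bb]; exact pow_le_one₀ (by norm_num) (by norm_num)

lemma exps (k N l : ℕ) (hk : k ≠ N) (hpar : k % 2 = N % 2) (h1 : l ≤ k) (h2 : l ≤ N) :
    k + 2 + 2 * 3 ^ (l + 1) ≤ 3 ^ k + 3 ^ N := by
  rcases lt_or_gt_of_ne hk with h | h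
  · obtain ⟨t, rfl⟩ : ∃ t, N = k + 2 + t := ⟨N - (k + 2), by omega⟩
    have h3 : 3 ^ (l + 1) ≤ 3 ^ (k + 1) := Nat.pow_le_pow_right (by norm_num) (by omega)
    have h4 : 3 ^ (k + 2 + t) = 9 * 3 ^ k * 3 ^ t := by ring
    have h5 : 1 ≤ 3 ^ t := Nat.one_le_pow _ _ (by norm_num)
    have h6 : k + 1 ≤ 3 ^ k := Nat.lt_pow_self (by norm_num)
    have h7 : 9 * 3 ^ k * 1 ≤ 9 * 3 ^ k * 3 ^ t := Nat.mul_le_mul_left _ h5
    rw [h4]
    rw [pow_succ] at h3
    rw [pow_succ] at h3 ⊢
    omega
  · obtain ⟨t, rfl⟩ : ∃ t, k = N + 2 + t := ⟨k - (N + 2), by omega⟩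
    have h3 : 3 ^ (l + 1) ≤ 3 ^ (N + 1) := Nat.pow_le_pow_right (by norm_num) (by omega)
    have h4 : 3 ^ (N + 2 + t) = 9 * (3 ^ N * 3 ^ t) := by ring
    have h5 : t + 1 ≤ 3 ^ t := Nat.lt_pow_self (by norm_num)
    have h6 : N + 1 ≤ 3 ^ N := Nat.lt_pow_self (by norm_num)
    have h7 : 3 ^ N * (t + 1) ≤ 3 ^ N * 3 ^ t := Nat.mul_le_mul_left _ h5
    have h8 : 1 * t ≤ 3 ^ N * t := Nat.mul_le_mul_right _ (by omega)
    have h9 : 3 ^ N * (t + 1) = 3 ^ N * t + 3 ^ N := by ring
    rw [h4]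
    rw [pow_succ] at h3 ⊢
    omega

lemma coef_bound (k N l : ℕ) (hk : k ≠ N) (hpar : k % 2 = N % 2) (h1 : l ≤ k) (h2 : l ≤ N) :
    ‖bb k * bb N * ((bb (l + 1)) ^ 2)⁻¹‖ ≤ (1 / 2) ^ (k + 2) := by
  have hpos : (0 : ℝ) < ((1 / 2) ^ (3 ^ (l + 1))) ^ 2 := by positivity
  rw [norm_mul, norm_mul, norm_inv, norm_pow, norm_bb, norm_bb, norm_bb,
    mul_inv_le_iff₀ hpos, ← pow_add, ← pow_mul, ← pow_add]
  apply pow_le_pow_of_le_one (by norm_num) (by norm_num)
  have := exps k N l hk hpar h1 h2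
  omega

/-- parity -/
def par (k : ℕ) : Bool := decide (k % 2 = 0)

lemma par_eq {k N : ℕ} : par k = par N ↔ k % 2 = N % 2 := by
  unfold par
  rw [decide_eq_decide]
  omega

variable [Fintype ι]

open Classical in
theorem scheme (u : ℕ → ι → S)
    (hu : ∀ n s, InL u n s → ∃ j q, s = u (n + 1) j + q ∧ InL u (n + 1) q) :
    ∃ (m : ℕ) (a : Fin m → L1 S) (lev : {s : S // ∃ n, InL u n s} → ℕ)
      (J : L1 {s : S // ∃ n, InL u n s} →L[ℂ] L1 S)
      (R : L1 {s : S // ∃ n, InL u n s} →L[ℂ] (Fin m → L1 S)),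
      (∀ s, InL u (lev s) s.1) ∧ (∀ s n, InL u n s.1 → lev s ≤ n) ∧
      (∀ s, J (dl s) = (bb (lev s + 1)) ^ 2 • dl s.1) ∧
      ∀ x, J x = ∑ j, mulL (a j) (R x j) := by
  let L := {s : S // ∃ n, InL u n s}
  -- the level of an element
  let lev : L → ℕ := fun s => Nat.find s.2
  have hlev : ∀ s : L, InL u (lev s) s.1 := fun s => Nat.find_spec s.2
  have hlev_le : ∀ (s : L) n, InL u n s.1 → lev s ≤ n := fun s n h => Nat.find_min' s.2 h
  choose jj qq hq1 hq2 using fun s : L => hu (lev s) s.1 (hlev s)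
  let tt : L → ℕ → L := fun s k => ⟨u k (jj s) + qq s, ⟨k, jj s, Or.inr ⟨qq s, rfl⟩⟩⟩
  have htt1 : ∀ s k, lev (tt s k) ≤ k := fun s k => hlev_le _ _ ⟨jj s, Or.inr ⟨qq s, rfl⟩⟩
  have htt2 : ∀ s k, lev (tt s k) ≤ lev s + 1 := by
    intro s k
    apply hlev_le
    obtain ⟨i, hi⟩ := hq2 s
    exact ⟨i, hi.add_left _⟩
  have htts : ∀ s, tt s (lev s + 1) = s := by
    intro s
    apply Subtype.ext
    exact (hq1 s).symm
  -- the error coefficients
  let c : L → ℕ → ℂ := fun s k =>
    if par k = par (lev s + 1) ∧ k ≠ lev s + 1 then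
      bb k * bb (lev s + 1) * ((bb (lev (tt s k) + 1)) ^ 2)⁻¹ else 0
  have hc : ∀ s k, ‖c s k‖ ≤ (1 / 2) ^ (k + 2) := by
    intro s k
    by_cases h : par k = par (lev s + 1) ∧ k ≠ lev s + 1
    · have : c s k = bb k * bb (lev s + 1) * ((bb (lev (tt s k) + 1)) ^ 2)⁻¹ := if_pos h
      rw [this]
      exact coef_bound k (lev s + 1) (lev (tt s k)) h.2 (par_eq.1 h.1) (htt1 s k) (htt2 s k)
    · have : c s k = 0 := if_neg h
      rw [this, norm_zero]
      positivity
  have hgeo : HasSum (fun k : ℕ => (1 / 2 : ℝ) ^ (k + 2)) (1 / 2) := by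
    have h := (hasSum_geometric_of_lt_one (r := (1 / 2 : ℝ)) (by norm_num) (by norm_num)).mul_left
      ((1 / 2) ^ 2)
    have h2 : (fun k : ℕ => (1 / 2 : ℝ) ^ (k + 2)) = fun k => (1 / 2) ^ 2 * (1 / 2) ^ k := by
      ext k; rw [pow_add]; ring
    have h3 : ((1 / 2 : ℝ) ^ 2 * (1 - 1 / 2)⁻¹) = 1 / 2 := by norm_num
    rw [h2]
    rw [h3] at h
    exact h
  have hcs : ∀ s, Summable fun k => c s k • (dl (tt s k) : L1 L) := by
    intro s
    refine Summable.of_norm_bounded hgeo.summable fun k => ?_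
    rw [norm_smul, norm_dl, mul_one]
    exact hc s k
  let e : L → L1 L := fun s => -∑' k, c s k • dl (tt s k)
  have he : ∀ s, ‖e s‖ ≤ 1 / 2 := by
    intro s
    change ‖-∑' k, c s k • (dl (tt s k) : L1 L)‖ ≤ 1 / 2
    rw [norm_neg]
    refine tsum_of_norm_bounded hgeo fun k => ?_
    rw [norm_smul, norm_dl, mul_one]
    exact hc s k
  let E : L1 L →L[ℂ] L1 L := lift e (1 / 2) he
  have hE : ‖E‖ < 1 := (norm_lift_le e (1 / 2) (by norm_num) he).trans_lt (by norm_num)
  have hJ : ∀ s : L, ‖(bb (lev s + 1)) ^ 2 • (dl s.1 : L1 S)‖ ≤ 1 := by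
    intro s
    rw [norm_smul, norm_dl, mul_one, norm_pow]
    exact pow_le_one₀ (norm_nonneg _) (norm_bb_le _)
  let J : L1 L →L[ℂ] L1 S := lift (fun s : L => (bb (lev s + 1)) ^ 2 • (dl s.1 : L1 S)) 1 hJ
  have hJdl : ∀ s, J (dl s) = (bb (lev s + 1)) ^ 2 • dl s.1 := fun s => lift_dl _ _ _ _
  have hbb : Summable fun k => ‖bb k‖ := by
    refine Summable.of_nonneg_of_le (fun k => norm_nonneg _) (fun k => ?_)
      (summable_geometric_of_lt_one (r := (1 / 2 : ℝ)) (by norm_num) (by norm_num))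
    rw [norm_bb]
    exact pow_le_pow_of_le_one (by norm_num) (by norm_num) (Nat.lt_pow_self (by norm_num)).le
  let a : ι × Bool → L1 S := fun jp => ∑' k, (if par k = jp.2 then bb k else 0) • dl (u k jp.1)
  have ha : ∀ jp : ι × Bool, Summable fun k =>
      (if par k = jp.2 then bb k else 0) • (dl (u k jp.1) : L1 S) := by
    intro jp
    refine Summable.of_norm_bounded hbb fun k => ?_
    rw [norm_smul, norm_dl, mul_one]
    split_ifs
    · exact le_rfl
    · rw [norm_zero]; exact norm_nonneg _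
  have hT : ∀ s : L, ‖(Pi.single (jj s, par (lev s + 1)) (bb (lev s + 1) • dl (qq s)) :
      ι × Bool → L1 S)‖ ≤ 1 := by
    intro s
    rw [pi_norm_le_iff_of_nonneg zero_le_one]
    intro jp
    rw [Pi.single_apply]
    split_ifs
    · rw [norm_smul, norm_dl, mul_one]; exact norm_bb_le _
    · rw [norm_zero]; exact zero_le_one
  let T : L1 L →L[ℂ] (ι × Bool → L1 S) :=
    lift (fun s => Pi.single (jj s, par (lev s + 1)) (bb (lev s + 1) • dl (qq s))) 1 hT
  let Φ : (ι × Bool → L1 S) →L[ℂ] L1 S :=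
    ∑ jp, (mulL (a jp)).comp (ContinuousLinearMap.proj jp)
  have hΦ : ∀ b, Φ b = ∑ jp, mulL (a jp) (b jp) := by
    intro b
    simp [Φ]
  have hΦs : ∀ jp y, Φ (Pi.single jp y) = mulL (a jp) y := by
    intro jp y
    rw [hΦ, Finset.sum_eq_single jp]
    · rw [Pi.single_eq_same]
    · intro jp' _ h
      rw [Pi.single_eq_of_ne h, map_zero]
    · intro h; exact absurd (Finset.mem_univ _) h
  have key : J = Φ.comp T + J.comp E := by
    apply ext_dl
    intro s
    have hTs : T (dl s) = Pi.single (jj s, par (lev s + 1)) (bb (lev s + 1) • dl (qq s)) :=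
      lift_dl _ _ _ _
    have hEs : E (dl s) = e s := lift_dl _ _ _ _
    rw [add_apply, ContinuousLinearMap.comp_apply,
      ContinuousLinearMap.comp_apply, hTs, hEs, hΦs, hJdl, map_smul, mulL_dl]
    -- the full series
    let H : ℕ → L1 S := fun k =>
      (bb (lev s + 1) * (if par k = par (lev s + 1) then bb k else 0)) • dl (u k (jj s) + qq s)
    have hH1 : HasSum H (bb (lev s + 1) • tr (qq s) (a (jj s, par (lev s + 1)))) := by
      have h1 := ((ha (jj s, par (lev s + 1))).hasSum.mapL (tr (qq s))).const_smul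
        (bb (lev s + 1))
      convert h1 using 2 with k
      simp only [H, map_smul, tr_dl, smul_smul]
    have hH2 : J (e s) = -∑' k, (if k = lev s + 1 then 0 else H k) := by
      change J (-∑' k, c s k • (dl (tt s k) : L1 L)) = _
      rw [map_neg, J.map_tsum (hcs s)]
      congr 1
      refine tsum_congr fun k => ?_
      rw [map_smul, hJdl, smul_smul]
      by_cases hk : k = lev s + 1
      · have : c s k = 0 := if_neg (fun h => h.2 hk)
        rw [this, if_pos hk, zero_mul, zero_smul]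
      · rw [if_neg hk]
        by_cases hp : par k = par (lev s + 1)
        · have h1 : c s k = bb k * bb (lev s + 1) * ((bb (lev (tt s k) + 1)) ^ 2)⁻¹ :=
            if_pos ⟨hp, hk⟩
          simp only [H]
          rw [h1, if_pos hp, inv_mul_cancel_right₀ (pow_ne_zero 2 (bb_ne _)), mul_comm (bb k)]
        · have h1 : c s k = 0 := if_neg (fun h => hp h.1)
          simp only [H]
          rw [h1, if_neg hp, zero_mul, mul_zero, zero_smul]
    have hH3 := hH1.summable.tsum_eq_add_tsum_ite (lev s + 1)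
    rw [hH1.tsum_eq] at hH3
    rw [hH2, hH3, add_neg_cancel_right]
    simp only [H, if_true]
    rw [← hq1 s, pow_two]
  have hR : ∀ x, J x = Φ (T ((↑(Units.oneSub E hE)⁻¹ : L1 L →L[ℂ] L1 L) x)) := by
    intro x
    set z := (↑(Units.oneSub E hE)⁻¹ : L1 L →L[ℂ] L1 L) x with hz
    have h1 : (1 - E) z = x := by
      have : (↑(Units.oneSub E hE) * ↑(Units.oneSub E hE)⁻¹ : L1 L →L[ℂ] L1 L) = 1 :=
        Units.mul_inv _
      have h2 := congrArg (fun F : L1 L →L[ℂ] L1 L => F x) this
      simpa using h2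
    have h3 : J z = Φ (T z) + J (E z) := by
      conv_lhs => rw [key]
      rfl
    have h4 : z - E z = x := by simpa using h1
    rw [← h4, map_sub, h3, add_sub_cancel_right]
  let eqv := Fintype.equivFin (ι × Bool)
  refine ⟨Fintype.card (ι × Bool), fun j => a (eqv.symm j), lev, J,
    (ContinuousLinearMap.pi fun j => (ContinuousLinearMap.proj (eqv.symm j) :
      (ι × Bool → L1 S) →L[ℂ] L1 S)).comp
      (T.comp (↑(Units.oneSub E hE)⁻¹ : L1 L →L[ℂ] L1 L)), hlev, hlev_le, hJdl, ?_⟩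
  intro x
  rw [hR x, hΦ]
  rw [← Equiv.sum_comp eqv.symm]
  rfl

end scheme

section stages

variable {S : Type*} [AddCommSemigroup S]

/-- `U` is a set whose distinct elements have no common divisor. -/
def PairwiseCoprime (U : Finset S) : Prop :=
  ∀ u ∈ U, ∀ v ∈ U, u ≠ v → ¬ ∃ d, Divides d u ∧ Divides d v

open Classical in
lemma cover (M : ℕ) (hM : ∀ U : Finset S, PairwiseCoprime U → U.card ≤ M) (F : Finset S) :
    ∃ U : Finset S, U.card ≤ M ∧ ∀ s ∈ F, ∃ u ∈ U, Divides u s := by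
  have hex : ∃ n, ∃ U : Finset S, U.card = n ∧ ∀ s ∈ F, ∃ u ∈ U, Divides u s :=
    ⟨F.card, F, rfl, fun s hs => ⟨s, hs, Divides.refl s⟩⟩
  obtain ⟨U, hU, hcov⟩ := Nat.find_spec hex
  refine ⟨U, hM U ?_, hcov⟩
  rintro u hu v hv huv ⟨d, hdu, hdv⟩
  let U' := insert d ((U.erase u).erase v)
  have hv' : v ∈ U.erase u := Finset.mem_erase.2 ⟨huv.symm, hv⟩
  have h1 : ((U.erase u).erase v).card + 1 = (U.erase u).card := Finset.card_erase_add_one hv'
  have h2 : (U.erase u).card + 1 = U.card := Finset.card_erase_add_one hu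
  have h3 : U'.card ≤ ((U.erase u).erase v).card + 1 := Finset.card_insert_le _ _
  have h4 : U'.card < Nat.find hex := by omega
  refine Nat.find_min hex h4 ⟨U', rfl, ?_⟩
  intro s hs
  obtain ⟨w, hw, hws⟩ := hcov s hs
  by_cases hwu : w = u
  · exact ⟨d, Finset.mem_insert_self _ _, hdu.trans (hwu ▸ hws)⟩
  · by_cases hwv : w = v
    · exact ⟨d, Finset.mem_insert_self _ _, hdv.trans (hwv ▸ hws)⟩
    · exact ⟨w, Finset.mem_insert_of_mem
        (Finset.mem_erase.2 ⟨hwv, Finset.mem_erase.2 ⟨hwu, hw⟩⟩), hws⟩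

lemma stage [Nonempty S] (hS : ∀ s : S, ∃ p q, s = p + q) (M : ℕ)
    (hM : ∀ U : Finset S, PairwiseCoprime U → U.card ≤ M) (F : Finset S) :
    ∃ w : Fin M × Bool → S, ∀ s ∈ F, ∃ i j, Divides (w i + w j) s := by
  obtain ⟨U, hU, hcov⟩ := cover M hM F
  choose p q hpq using hS
  let v : Fin M → S := fun i =>
    if h : i.1 < U.card then (U.equivFin.symm ⟨i.1, h⟩).1 else Classical.arbitrary S
  refine ⟨fun x => if x.2 then p (v x.1) else q (v x.1), ?_⟩
  intro s hs
  obtain ⟨u, hu, hus⟩ := hcov s hs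
  let i : Fin M := Fin.castLE hU (U.equivFin ⟨u, hu⟩)
  have hvi : v i = u := by
    have h : i.1 < U.card := (U.equivFin ⟨u, hu⟩).2
    have h1 : v i = (U.equivFin.symm ⟨i.1, h⟩).1 := dif_pos h
    rw [h1]
    have h2 : (⟨i.1, h⟩ : Fin U.card) = U.equivFin ⟨u, hu⟩ := rfl
    rw [h2, Equiv.symm_apply_apply]
  refine ⟨(i, true), (i, false), ?_⟩
  simp only [if_true, Bool.false_eq_true, if_false]
  rw [← hpq (v i), hvi]
  exact hus

open Classical in
lemma stages [Nonempty S] (hS : ∀ s : S, ∃ p q, s = p + q) (M : ℕ)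
    (hM : ∀ U : Finset S, PairwiseCoprime U → U.card ≤ M) (F : ℕ → Finset S) :
    ∃ u : ℕ → Fin M × Bool → S, (∀ n, ∀ s ∈ F n, InL u n s) ∧
      (∀ n s, InL u n s → ∃ j q, s = u (n + 1) j + q ∧ InL u (n + 1) q) := by
  choose st hst using stage hS M hM
  let u : ℕ → Fin M × Bool → S := fun n =>
    Nat.rec (st (F 0)) (fun n un => st (F (n + 1) ∪ Finset.univ.image un)) n
  have hu0 : u 0 = st (F 0) := rfl
  have hus : ∀ n, u (n + 1) = st (F (n + 1) ∪ Finset.univ.image (u n)) := fun n => rfl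
  have hP1 : ∀ n, ∀ s ∈ F n, ∃ i j, Divides (u n i + u n j) s := by
    intro n s hs
    cases n with
    | zero => rw [hu0]; exact hst _ s hs
    | succ n => rw [hus]; exact hst _ s (Finset.mem_union_left _ hs)
  have hP2 : ∀ n k, ∃ i j, Divides (u (n + 1) i + u (n + 1) j) (u n k) := by
    intro n k
    rw [hus]
    exact hst _ _ (Finset.mem_union_right _ (Finset.mem_image_of_mem _ (Finset.mem_univ k)))
  refine ⟨u, ?_, ?_⟩
  · intro n s hs
    obtain ⟨i, j, h⟩ := hP1 n s hs
    exact ⟨i, Divides.trans (Or.inr ⟨_, rfl⟩) h⟩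
  · rintro n s ⟨k, hk⟩
    obtain ⟨i, j, h⟩ := hP2 n k
    rcases h.trans hk with h1 | ⟨r, h1⟩
    · exact ⟨i, u (n + 1) j, h1, j, Divides.refl _⟩
    · exact ⟨i, u (n + 1) j + r, by rw [h1, add_assoc], j, Or.inr ⟨r, rfl⟩⟩

end stages

section tails

variable {S : Type*}

lemma sum_norm_le (f : L1 S) (T : Finset S) : ∑ s ∈ T, ‖f s‖ ≤ ‖f‖ :=
  sum_le_hasSum T (fun _ _ => norm_nonneg _) (hasSum_norm1 f)

open Classical in
lemma tails (z : ℕ → L1 S) (hz : Tendsto z atTop (𝓝 0)) (ε : ℝ) (hε : 0 < ε) :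
    ∃ F : Finset S, ∀ k, ∀ T : Finset S, Disjoint T F → ∑ s ∈ T, ‖z k s‖ ≤ ε := by
  have h1 : ∀ k, ∃ F : Finset S, ∀ T : Finset S, Disjoint T F → ∑ s ∈ T, ‖z k s‖ ≤ ε := by
    intro k
    obtain ⟨F, hF⟩ := summable_iff_vanishing_norm.1 (hasSum_norm1 (z k)).summable ε hε
    refine ⟨F, fun T hT => ?_⟩
    exact (le_abs_self _).trans (hF T hT).le
  choose G hG using h1
  have h2 : ∀ᶠ k in atTop, ‖z k‖ < ε := by
    have := hz.norm
    rw [norm_zero] at this
    exact this.eventually (gt_mem_nhds hε)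
  obtain ⟨K, hK⟩ := eventually_atTop.1 h2
  refine ⟨(Finset.range K).biUnion G, ?_⟩
  intro k T hT
  by_cases hk : K ≤ k
  · exact (sum_norm_le (z k) T).trans (hK k hk).le
  · refine hG k T (Finset.disjoint_of_subset_right ?_ hT)
    exact Finset.subset_biUnion_of_mem G (Finset.mem_range.2 (not_le.1 hk))

end tails

section sufficiency

variable {S : Type*} [AddCommSemigroup S]

/-- The weights `W n = |β_{n+1}|⁻²`. -/
def WW (n : ℕ) : ℝ := (‖bb (n + 1)‖ ^ 2)⁻¹

lemma WW_pos (n : ℕ) : 0 < WW n := by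
  unfold WW
  rw [norm_bb]
  positivity

lemma mem_L1_of_bound {ι : Type*} (f : ι → ℂ) (C : ℝ)
    (hC : ∀ T : Finset ι, ∑ s ∈ T, ‖f s‖ ≤ C) : ∃ g : L1 ι, (∀ i, g i = f i) ∧ ‖g‖ ≤ C := by
  have hs : Summable fun i => ‖f i‖ := summable_of_sum_le (fun _ => norm_nonneg _) hC
  have hm : Memℓp f 1 := memℓp_gen (by simpa using hs)
  refine ⟨⟨f, hm⟩, fun i => rfl, ?_⟩
  have h := hasSum_norm1 (⟨f, hm⟩ : L1 ι)
  exact hasSum_le_of_sum_le h hC

open Classical in
/-- Bounded factorization of a null sequence. -/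
lemma bounded_factor [Nonempty S] (hS : ∀ s : S, ∃ p q, s = p + q) (M : ℕ)
    (hM : ∀ U : Finset S, PairwiseCoprime U → U.card ≤ M) (z : ℕ → L1 S)
    (hz : Tendsto z atTop (𝓝 0)) :
    ∃ (m : ℕ) (a : Fin m → L1 S) (b : ℕ → Fin m → L1 S) (C : ℝ),
      (∀ k, ‖b k‖ ≤ C) ∧ ∀ k, z k = ∑ j, mulL (a j) (b k j) := by
  -- the finite sets
  choose F hF using fun n : ℕ => tails z hz ((1 / 2) ^ n * (WW (n + 1))⁻¹)
    (mul_pos (by positivity) (inv_pos.2 (WW_pos _)))
  obtain ⟨u, hu1, hu2⟩ := stages hS M hM F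
  obtain ⟨m, a, lev, J, R, hlev, hlev_le, hJ, hR⟩ := scheme u hu2
  let L := {s : S // ∃ n, InL u n s}
  -- a uniform bound for the norms
  obtain ⟨K, hK⟩ : ∃ K, ∀ k, ‖z k‖ ≤ K := by
    obtain ⟨K, hK⟩ := (hz.norm.bddAbove_range)
    exact ⟨K, fun k => hK ⟨k, rfl⟩⟩
  have hK0 : 0 ≤ K := (norm_nonneg _).trans (hK 0)
  -- the weighted norms are bounded
  have hbound : ∀ k, ∀ T : Finset L, ∑ s ∈ T, ‖z k s.1 * ((bb (lev s + 1)) ^ 2)⁻¹‖ ≤
      K * WW 0 + 2 := by
    intro k T
    have h0 : ∀ s : L, ‖z k s.1 * ((bb (lev s + 1)) ^ 2)⁻¹‖ = ‖z k s.1‖ * WW (lev s) := by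
      intro s
      rw [norm_mul, norm_inv, norm_pow, WW]
    simp only [h0]
    obtain ⟨N, hN⟩ : ∃ N, ∀ s ∈ T, lev s ∈ Finset.range (N + 1) := by
      refine ⟨T.sup lev, fun s hs => ?_⟩
      exact Finset.mem_range.2 (Nat.lt_succ_of_le (Finset.le_sup hs))
    rw [← Finset.sum_fiberwise_of_maps_to hN]
    have h1 : ∀ n, ∑ s ∈ T with lev s = n, ‖z k s.1‖ * WW (lev s) =
        (∑ s ∈ (T.filter (fun s => lev s = n)).map (Function.Embedding.subtype _), ‖z k s‖)
          * WW n := by
      intro n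
      rw [Finset.sum_map, Finset.sum_mul]
      refine Finset.sum_congr rfl fun s hs => ?_
      rw [(Finset.mem_filter.1 hs).2]
      rfl
    refine (Finset.sum_congr rfl fun n _ => h1 n).trans_le ?_
    rw [Finset.sum_range_succ']
    have h2 : ∀ n, (∑ s ∈ (T.filter (fun s => lev s = n + 1)).map
        (Function.Embedding.subtype _), ‖z k s‖) * WW (n + 1) ≤ (1 / 2) ^ n := by
      intro n
      have h3 : Disjoint ((T.filter (fun s => lev s = n + 1)).map
          (Function.Embedding.subtype _)) (F n) := by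
        rw [Finset.disjoint_left]
        intro s hs hsF
        obtain ⟨s', hs', rfl⟩ := Finset.mem_map.1 hs
        have h4 := hlev_le s' n (hu1 n _ hsF)
        rw [(Finset.mem_filter.1 hs').2] at h4
        omega
      have h5 := hF n k _ h3
      have h6 := WW_pos (n + 1)
      calc _ ≤ ((1 / 2) ^ n * (WW (n + 1))⁻¹) * WW (n + 1) :=
            mul_le_mul_of_nonneg_right h5 h6.le
        _ = (1 / 2) ^ n := by rw [inv_mul_cancel_right₀ h6.ne']
    have h7 : (∑ s ∈ (T.filter (fun s => lev s = 0)).map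
        (Function.Embedding.subtype _), ‖z k s‖) * WW 0 ≤ K * WW 0 :=
      mul_le_mul_of_nonneg_right ((sum_norm_le (z k) _).trans (hK k)) (WW_pos 0).le
    have h8 : ∑ n ∈ Finset.range N, (1 / 2 : ℝ) ^ n ≤ 2 := by
      have := sum_le_hasSum (Finset.range N) (fun n _ => by positivity)
        (hasSum_geometric_two)
      exact this
    have h9 := Finset.sum_le_sum fun n (_ : n ∈ Finset.range N) => h2 n
    linarith
  choose y hy1 hy2 using fun k => mem_L1_of_bound
    (fun s : L => z k s.1 * ((bb (lev s + 1)) ^ 2)⁻¹) _ (hbound k)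
  have hJy : ∀ k, J (y k) = z k := by
    intro k
    have h1 := (hasSum_dl (y k)).mapL J
    have h2 : HasSum (fun s : L => z k s.1 • (dl s.1 : L1 S)) (J (y k)) := by
      convert h1 using 2 with s
      rw [map_smul, hJ, hy1, smul_smul, inv_mul_cancel_right₀ (pow_ne_zero 2 (bb_ne _))]
    have h3 : HasSum (fun s : S => z k s • (dl s : L1 S)) (J (y k)) := by
      refine (hasSum_subtype_iff_of_support_subset (s := {s : S | ∃ n, InL u n s}) ?_).1 h2
      intro s hs
      by_contra hcon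
      apply hs
      have hz0 : z k s = 0 := by
        rw [← norm_le_zero_iff]
        have h4 : ∀ n : ℕ, ‖z k s‖ ≤ (1 / 2) ^ n := by
          intro n
          have h5 : Disjoint ({s} : Finset S) (F n) := by
            rw [Finset.disjoint_singleton_left]
            intro hsF
            exact hcon ⟨n, hu1 n s hsF⟩
          have h6 := hF n k _ h5
          rw [Finset.sum_singleton] at h6
          refine h6.trans (mul_le_of_le_one_right (by positivity) ?_)
          rw [WW, inv_inv]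
          exact pow_le_one₀ (norm_nonneg _) (norm_bb_le _)
        exact ge_of_tendsto' (tendsto_pow_atTop_nhds_zero_of_lt_one (by norm_num)
          (by norm_num)) h4
      change z k s • (dl s : L1 S) = 0
      rw [hz0, zero_smul]
    exact h3.unique (hasSum_dl (z k))
  refine ⟨m, a, fun k => R (y k), ‖R‖ * (K * WW 0 + 2), ?_, ?_⟩
  · intro k
    exact R.le_of_opNorm_le_of_le le_rfl (hy2 k)
  · intro k
    rw [← hJy k, hR]


/-- `c₀(A) = A·c₀(A)` for `A = ℓ¹(S)`. -/
def NullFactor (S : Type*) [AddCommSemigroup S] : Prop :=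
  ∀ x : ℕ → L1 S, Tendsto x atTop (𝓝 0) →
    ∃ (m : ℕ) (a : Fin m → L1 S) (b : Fin m → ℕ → L1 S),
      (∀ j, Tendsto (b j) atTop (𝓝 0)) ∧ ∀ k s, x k s = ∑ j, conv (a j) (b j k) s

/-- `A = A²` for `A = ℓ¹(S)`. -/
def SqEq (S : Type*) [AddCommSemigroup S] : Prop :=
  ∀ f : L1 S, ∃ (m : ℕ) (b c : Fin m → L1 S), ∀ s, f s = ∑ j, conv (b j) (c j) s

/-- The combinatorial condition. -/
def Condition (S : Type*) [AddCommSemigroup S] : Prop :=
  (∀ s : S, ∃ p q, s = p + q) ∧ ∃ M : ℕ, ∀ U : Finset S, PairwiseCoprime U → U.card ≤ M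

open Classical in
theorem nullFactor_of_condition (h : Condition S) : NullFactor S := by
  intro x hx
  rcases isEmpty_or_nonempty S with hS | hS
  · exact ⟨0, fun _ => 0, fun _ _ => 0, fun j => j.elim0, fun k s => isEmptyElim s⟩
  obtain ⟨hS2, M, hM⟩ := h
  let r : ℕ → ℂ := fun k => ((Real.sqrt ‖x k‖ : ℝ) : ℂ)
  have hr : ∀ k, ‖r k‖ = Real.sqrt ‖x k‖ := fun k => by
    rw [Complex.norm_real, Real.norm_of_nonneg (Real.sqrt_nonneg _)]
  have hr0 : Tendsto (fun k => ‖r k‖) atTop (𝓝 0) := by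
    simp only [hr]
    have := (hx.norm).sqrt
    simpa using this
  let z : ℕ → L1 S := fun k => (r k)⁻¹ • x k
  have hzn : ∀ k, ‖z k‖ = Real.sqrt ‖x k‖ := by
    intro k
    change ‖(r k)⁻¹ • x k‖ = _
    rw [norm_smul, norm_inv, hr]
    rcases eq_or_lt_of_le (norm_nonneg (x k)) with h0 | h0
    · rw [← h0]; simp
    · have h1 : 0 < Real.sqrt ‖x k‖ := Real.sqrt_pos.2 h0
      rw [inv_mul_eq_div, Real.div_sqrt]
  have hz : Tendsto z atTop (𝓝 0) := by
    rw [tendsto_zero_iff_norm_tendsto_zero]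
    simp only [hzn]
    simp only [hr] at hr0
    exact hr0
  have hxz : ∀ k, x k = r k • z k := by
    intro k
    change x k = r k • ((r k)⁻¹ • x k)
    by_cases h0 : r k = 0
    · have h1 : ‖r k‖ = 0 := by rw [h0, norm_zero]
      rw [hr, Real.sqrt_eq_zero (norm_nonneg _), norm_eq_zero] at h1
      rw [h1]; simp
    · rw [smul_smul, mul_inv_cancel₀ h0, one_smul]
  obtain ⟨m, a, b, C, hb, hzb⟩ := bounded_factor hS2 M hM z hz
  refine ⟨m, a, fun j k => r k • b k j, ?_, ?_⟩
  · intro j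
    rw [tendsto_zero_iff_norm_tendsto_zero]
    have h1 : Tendsto (fun k => ‖r k‖ * C) atTop (𝓝 0) := by
      simpa using hr0.mul_const C
    refine squeeze_zero (fun k => norm_nonneg _) (fun k => ?_) h1
    rw [norm_smul]
    exact mul_le_mul_of_nonneg_left ((norm_le_pi_norm (b k) j).trans (hb k)) (norm_nonneg _)
  · intro k s
    have h1 : x k = ∑ j, mulL (a j) (r k • b k j) := by
      rw [hxz k, hzb k, Finset.smul_sum]
      refine Finset.sum_congr rfl fun j _ => ?_
      rw [map_smul]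
    have h2 : ev s (x k) = ∑ j, ev s (mulL (a j) (r k • b k j)) := by
      conv_lhs => rw [h1]
      rw [map_sum]
    simp only [ev_apply, mulL_apply] at h2
    exact h2

omit [AddCommSemigroup S] in
theorem sqEq_of_nullFactor (S : Type*) [AddCommSemigroup S] (h : NullFactor S) : SqEq S := by
  intro f
  obtain ⟨m, a, b, -, hab⟩ := h (fun k => ((1 : ℂ) / ((k : ℂ) + 1)) • f) (by
    have h1 : Tendsto (fun k : ℕ => (1 : ℂ) / ((k : ℂ) + 1)) atTop (𝓝 0) :=
      tendsto_one_div_add_atTop_nhds_zero_nat (𝕜 := ℂ)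
    have := h1.smul_const f
    simpa using this)
  refine ⟨m, a, fun j => b j 0, fun s => ?_⟩
  have := hab 0 s
  simpa using this

end sufficiency

section necessity

variable {S : Type*} [AddCommSemigroup S]

open Classical in
/-- mass of `b` on the divisors of `u`. -/
def mass (b : L1 S) (u : S) : ℝ := ∑' v, if Divides v u then ‖b v‖ else 0

open Classical in
lemma mass_summable (b : L1 S) (u : S) : Summable fun v => if Divides v u then ‖b v‖ else 0 := by
  refine Summable.of_nonneg_of_le (fun v => ?_) (fun v => ?_) (hasSum_norm1 b).summable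
  · split_ifs
    · exact norm_nonneg _
    · exact le_rfl
  · split_ifs
    · exact le_rfl
    · exact norm_nonneg _

open Classical in
lemma mass_nonneg (b : L1 S) (u : S) : 0 ≤ mass b u := by
  refine tsum_nonneg fun v => ?_
  split_ifs
  · exact norm_nonneg _
  · exact le_rfl

open Classical in
lemma sum_mass_le (b : L1 S) (U : Finset S) (hU : PairwiseCoprime U) :
    ∑ u ∈ U, mass b u ≤ ‖b‖ := by
  unfold mass
  rw [← Summable.tsum_finsetSum (fun u _ => mass_summable b u)]
  refine (Summable.tsum_le_tsum (g := fun v => ‖b v‖) ?_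
    (summable_sum fun u _ => mass_summable b u) (hasSum_norm1 b).summable).trans_eq
    (hasSum_norm1 b).tsum_eq
  intro v
  by_cases h : ∃ u ∈ U, Divides v u
  · obtain ⟨u, hu, hvu⟩ := h
    rw [Finset.sum_eq_single u]
    · rw [if_pos hvu]
    · intro w hw hwu
      rw [if_neg]
      intro hvw
      exact hU w hw u hu hwu ⟨v, hvw, hvu⟩
    · intro h'; exact absurd hu h'
  · push Not at h
    rw [Finset.sum_eq_zero]
    · exact norm_nonneg _
    · intro u hu
      rw [if_neg (h u hu)]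

open Classical in
lemma norm_conv_le (b c : L1 S) (u : S) : ‖conv b c u‖ ≤ mass b u * mass c u := by
  have hb := mass_summable b u
  have hc := mass_summable c u
  have hb0 : ∀ v, 0 ≤ (if Divides v u then ‖b v‖ else 0) := fun v => by
    split_ifs
    · exact norm_nonneg _
    · exact le_rfl
  have hc0 : ∀ v, 0 ≤ (if Divides v u then ‖c v‖ else 0) := fun v => by
    split_ifs
    · exact norm_nonneg _
    · exact le_rfl
  have hprod : Summable fun p : S × S => (if Divides p.1 u then ‖b p.1‖ else 0) *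
      (if Divides p.2 u then ‖c p.2‖ else 0) := hb.mul_of_nonneg hc hb0 hc0
  have h1 : mass b u * mass c u = ∑' p : S × S, (if Divides p.1 u then ‖b p.1‖ else 0) *
      (if Divides p.2 u then ‖c p.2‖ else 0) := hb.tsum_mul_tsum hc hprod
  rw [h1]
  have h2 : ∀ p : {p : S × S // p.1 + p.2 = u}, ‖b p.1.1 * c p.1.2‖ =
      (if Divides p.1.1 u then ‖b p.1.1‖ else 0) * (if Divides p.1.2 u then ‖c p.1.2‖ else 0) := by
    rintro ⟨⟨p, q⟩, hpq⟩
    have hpq' : p + q = u := hpq
    have hd1 : Divides p u := Or.inr ⟨q, hpq'.symm⟩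
    have hd2 : Divides q u := Or.inr ⟨p, by rw [add_comm]; exact hpq'.symm⟩
    change ‖b p * c q‖ = (if Divides p u then ‖b p‖ else 0) * (if Divides q u then ‖c q‖ else 0)
    rw [if_pos hd1, if_pos hd2, norm_mul]
  have h3 : Summable fun p : {p : S × S // p.1 + p.2 = u} => ‖b p.1.1 * c p.1.2‖ := by
    simp only [h2]
    exact hprod.subtype {p : S × S | p.1 + p.2 = u}
  refine (norm_tsum_le_tsum_norm h3).trans ?_
  simp only [h2]
  exact Summable.tsum_subtype_le (fun p : S × S => (if Divides p.1 u then ‖b p.1‖ else 0) *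
      (if Divides p.2 u then ‖c p.2‖ else 0)) {p : S × S | p.1 + p.2 = u}
      (fun p => mul_nonneg (hb0 _) (hc0 _)) hprod

open Classical in
theorem condition_of_sqEq (h : SqEq S) : Condition S := by
  constructor
  · intro s
    obtain ⟨m, b, c, hbc⟩ := h (dl s)
    by_contra hcon
    push Not at hcon
    have h1 := hbc s
    have h2 : IsEmpty {p : S × S // p.1 + p.2 = s} := ⟨fun p => hcon p.1.1 p.1.2 p.2.symm⟩
    have h3 : ∀ j, conv (b j) (c j) s = 0 := fun j => by
      unfold conv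
      exact tsum_empty
    rw [dl_apply, if_pos rfl, Finset.sum_eq_zero (fun j _ => h3 j)] at h1
    exact one_ne_zero h1
  · by_contra hcon
    push Not at hcon
    have h1 : ∀ n : ℕ, ∃ U : Finset S, PairwiseCoprime U ∧ U.card = 16 ^ n := by
      intro n
      obtain ⟨U, hU, hcard⟩ := hcon (16 ^ n)
      obtain ⟨V, hVU, hV⟩ := Finset.exists_subset_card_eq hcard.le
      exact ⟨V, fun u hu v hv huv => hU u (hVU hu) v (hVU hv) huv, hV⟩
    choose U hU hcard using h1
    have hsum : ∀ s, Summable fun n : ℕ => if s ∈ U n then (1 / 64 : ℝ) ^ n else 0 := by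
      intro s
      refine Summable.of_nonneg_of_le (fun n => ?_) (fun n => ?_)
        (summable_geometric_of_lt_one (r := (1 / 64 : ℝ)) (by norm_num) (by norm_num))
      · split_ifs
        · positivity
        · exact le_rfl
      · split_ifs
        · exact le_rfl
        · positivity
    let g : S → ℝ := fun s => ∑' n : ℕ, if s ∈ U n then (1 / 64 : ℝ) ^ n else 0
    have hg0 : ∀ s, 0 ≤ g s := fun s => tsum_nonneg fun n => by
      split_ifs
      · positivity
      · exact le_rfl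
    have hg1 : ∀ n, ∀ s ∈ U n, (1 / 64 : ℝ) ^ n ≤ g s := by
      intro n s hs
      have := (hsum s).le_tsum n (fun k _ => by
        split_ifs
        · positivity
        · exact le_rfl)
      rw [if_pos hs] at this
      exact this
    have hfin : ∀ T : Finset S, ∑ s ∈ T, ‖((g s : ℝ) : ℂ)‖ ≤ 2 := by
      intro T
      have h2 : ∀ s, ‖((g s : ℝ) : ℂ)‖ = g s := fun s => by
        rw [Complex.norm_real, Real.norm_of_nonneg (hg0 s)]
      simp only [h2]
      rw [← Summable.tsum_finsetSum (fun s _ => hsum s)]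
      have h4 : HasSum (fun n : ℕ => (1 / 4 : ℝ) ^ n) (4 / 3) := by
        have := hasSum_geometric_of_lt_one (r := (1 / 4 : ℝ)) (by norm_num) (by norm_num)
        have h5 : (1 - 1 / 4 : ℝ)⁻¹ = 4 / 3 := by norm_num
        rwa [h5] at this
      have h6 : ∀ n : ℕ, ∑ s ∈ T, (if s ∈ U n then (1 / 64 : ℝ) ^ n else 0) ≤ (1 / 4) ^ n := by
        intro n
        rw [← Finset.sum_filter, Finset.sum_const, nsmul_eq_mul]
        have h7 : (T.filter (fun s => s ∈ U n)).card ≤ 16 ^ n := by
          rw [← hcard n]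
          exact Finset.card_le_card fun s hs => (Finset.mem_filter.1 hs).2
        have h8 : ((T.filter (fun s => s ∈ U n)).card : ℝ) ≤ 16 ^ n := by exact_mod_cast h7
        calc _ ≤ (16 : ℝ) ^ n * (1 / 64) ^ n := mul_le_mul_of_nonneg_right h8 (by positivity)
          _ = (1 / 4) ^ n := by rw [← mul_pow]; norm_num
      refine (Summable.tsum_le_tsum h6 (summable_sum fun s _ => hsum s) h4.summable).trans ?_
      rw [h4.tsum_eq]
      norm_num
    obtain ⟨f, hf, -⟩ := mem_L1_of_bound (fun s => ((g s : ℝ) : ℂ)) 2 hfin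
    obtain ⟨m, b, c, hbc⟩ := h f
    let Tot : S → ℝ := fun u => ∑ j, (mass (b j) u + mass (c j) u)
    have hTot : ∀ u, g u ≤ Tot u ^ 2 := by
      intro u
      have h2 : g u ≤ ∑ j, mass (b j) u * mass (c j) u := by
        have h3 : ‖f u‖ ≤ ∑ j, mass (b j) u * mass (c j) u := by
          rw [hbc u]
          exact (norm_sum_le _ _).trans (Finset.sum_le_sum fun j _ => norm_conv_le _ _ _)
        rw [hf, Complex.norm_real, Real.norm_of_nonneg (hg0 u)] at h3
        exact h3
      refine h2.trans ?_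
      rw [pow_two]
      change _ ≤ (∑ j, (mass (b j) u + mass (c j) u)) * Tot u
      rw [Finset.sum_mul]
      refine Finset.sum_le_sum fun j _ => ?_
      have h4 := mass_nonneg (b j) u
      have h5 := mass_nonneg (c j) u
      have h6 : mass (b j) u + mass (c j) u ≤ Tot u :=
        Finset.single_le_sum (f := fun j => mass (b j) u + mass (c j) u)
          (fun i _ => add_nonneg (mass_nonneg _ _) (mass_nonneg _ _)) (Finset.mem_univ j)
      calc mass (b j) u * mass (c j) u ≤
          (mass (b j) u + mass (c j) u) * (mass (b j) u + mass (c j) u) := by nlinarith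
        _ ≤ _ := mul_le_mul_of_nonneg_left h6 (add_nonneg h4 h5)
    have hTot0 : ∀ u, 0 ≤ Tot u := fun u =>
      Finset.sum_nonneg fun j _ => add_nonneg (mass_nonneg _ _) (mass_nonneg _ _)
    have hTot8 : ∀ n, ∀ u ∈ U n, (1 / 8 : ℝ) ^ n ≤ Tot u := by
      intro n u hu
      have h2 := (hg1 n u hu).trans (hTot u)
      have h3 : (1 / 64 : ℝ) ^ n = ((1 / 8) ^ n) ^ 2 := by
        rw [← pow_mul, mul_comm, pow_mul]; norm_num
      rw [h3] at h2
      exact le_of_sq_le_sq h2 (hTot0 u)
    have hfinal : ∀ n : ℕ, (2 : ℝ) ^ n ≤ ∑ j, (‖b j‖ + ‖c j‖) := by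
      intro n
      calc (2 : ℝ) ^ n = ∑ u ∈ U n, (1 / 8 : ℝ) ^ n := by
            rw [Finset.sum_const, hcard, nsmul_eq_mul]
            push_cast
            rw [← mul_pow]; norm_num
        _ ≤ ∑ u ∈ U n, Tot u := Finset.sum_le_sum fun u hu => hTot8 n u hu
        _ = ∑ j, ∑ u ∈ U n, (mass (b j) u + mass (c j) u) := Finset.sum_comm
        _ ≤ ∑ j, (‖b j‖ + ‖c j‖) := by
            refine Finset.sum_le_sum fun j _ => ?_
            rw [Finset.sum_add_distrib]
            exact add_le_add (sum_mass_le _ _ (hU n)) (sum_mass_le _ _ (hU n))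
    obtain ⟨n, hn⟩ := pow_unbounded_of_one_lt (∑ j, (‖b j‖ + ‖c j‖)) (one_lt_two)
    exact absurd (hfinal n) (not_le.2 hn)

end necessity

/-- For every commutative semigroup `S`, the Banach algebra `A = ℓ¹(S)` satisfies `A = A²` if and
only if it satisfies `c₀(A) = A·c₀(A)`, if and only if `S = S + S` and the finite sets of pairwise
coprime elements of `S` have bounded cardinality. -/
theorem result (S : Type*) [AddCommSemigroup S] :
    (SqEq S ↔ NullFactor S) ∧ (NullFactor S ↔ Condition S) :=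
  ⟨⟨fun h => nullFactor_of_condition (condition_of_sqEq h), sqEq_of_nullFactor S⟩,
    ⟨fun h => condition_of_sqEq (sqEq_of_nullFactor S h), nullFactor_of_condition⟩⟩

/-- The semigroup of positive rational numbers satisfies the condition: two positive rationals
always have a common divisor. -/
theorem condition_posRat : Condition {q : ℚ // 0 < q} := by
  refine ⟨fun s => ⟨⟨s.1 / 2, half_pos s.2⟩, ⟨s.1 / 2, half_pos s.2⟩,
    Subtype.ext (add_halves s.1).symm⟩, 1, ?_⟩
  intro U hU
  rw [Finset.card_le_one]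
  intro u hu v hv
  by_contra huv
  refine hU u hu v hv huv ?_
  have hpos : 0 < min u.1 v.1 / 2 := half_pos (lt_min u.2 v.2)
  have h1 : min u.1 v.1 / 2 < u.1 := (half_lt_self (lt_min u.2 v.2)).trans_le (min_le_left _ _)
  have h2 : min u.1 v.1 / 2 < v.1 := (half_lt_self (lt_min u.2 v.2)).trans_le (min_le_right _ _)
  exact ⟨⟨min u.1 v.1 / 2, hpos⟩,
    Or.inr ⟨⟨u.1 - min u.1 v.1 / 2, sub_pos.2 h1⟩, Subtype.ext (by simp)⟩,
    Or.inr ⟨⟨v.1 - min u.1 v.1 / 2, sub_pos.2 h2⟩, Subtype.ext (by simp)⟩⟩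

/-- In particular `c₀(A) = A·c₀(A)` and `A = A²` for `A = ℓ¹(ℚ⁺)`. -/
theorem posRat : SqEq {q : ℚ // 0 < q} ∧ NullFactor {q : ℚ // 0 < q} :=
  ⟨sqEq_of_nullFactor _ (nullFactor_of_condition condition_posRat),
    nullFactor_of_condition condition_posRat⟩

end

end Pool.Agent.Results.MP_bc5e3f_an.SemigroupAlgebras
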